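import Pool.Agent.Run7.h238.J.Av

/-!
# Simultaneous analytic rank zero for the twists of several curves
-/

set_option autoImplicit false

open scoped Classical

open WeierstrassCurve Filter Topology

namespace Run7.h238.G15

open Finset
open Pool.Agent.N969.P15 (Qc)
open Pool.Agent.Run7.h238.J (tw)
open Pool.Agent.Run7.h238.J.Mix (Lev Cls Com Good cls_sq cls4 com_cop)

/-- the coefficients of the short equation of `X_0(N)` -/
def al (N : ℕ) : ℚ := if N = 15 then -12987 else if N = 21 then -5211 else -351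

/-- the coefficients of the short equation of `X_0(N)` -/
def be (N : ℕ) : ℚ := if N = 15 then -263466 else if N = 21 then -31050 else 1890

theorem rank_gen {N : ℕ} (hN : Lev N) {a b t : ℚ} (ha : a = al N * t ^ 2) (hb : b = be N * t ^ 3)
    {n : ℕ} (hs : Squarefree n) (hc : Cls N n) (hq : Qc n) {d : ℤ} {v : ℚ} (hv : v ≠ 0)
    (h : t * d = -n * v ^ 2) : AnRank (tws a b d) 0 := by
  unfold al be Cls at *
  rcases hN with rfl | rfl | rfl
  · simp only [if_true] at ha hb hc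
    exact rank_tws ha hb ⟨hs, hc, hq⟩ hv h
  · norm_num at ha hb hc
    exact Run7.h238.G21.rank_tws (t := t) (by linarith) (by linarith) ⟨hs, hc, hq⟩ hv h
  · norm_num at ha hb hc
    exact Run7.h238.G24.rank_tws (t := t) (by linarith) hb ⟨hs, hc, hq⟩ hv h

set_option maxRecDepth 1000000 in
theorem sqm60 : ∀ y < 60, Nat.gcd y 60 = 1 → y ^ 2 % 60 = 1 ∨ y ^ 2 % 60 = 49 := by decide

set_option maxRecDepth 1000000 in
theorem sqm84 : ∀ y < 84, Nat.gcd y 84 = 1 → y ^ 2 % 84 = 1 ∨ y ^ 2 % 84 = 25 ∨ y ^ 2 % 84 = 37 := by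
  decide

set_option maxRecDepth 1000000 in
theorem sqm24 : ∀ y < 24, Nat.gcd y 24 = 1 → y ^ 2 % 24 = 1 := by decide

/-- the fixed auxiliary prime -/
theorem cls11 {N m : ℕ} (h : Cls N m) : Cls N (m * 11 ^ 2) := by
  unfold Cls at *
  split_ifs at *
  · omega
  · omega
  · omega

theorem tw11_mod {m : ℕ} (hm : Squarefree m) (h4 : m % 4 = 3) : tw 11 m % 4 = 1 := by
  have h := Pool.Agent.Run7.h424.J.tw_spec (a := 11) (n := m) (by
    exact (show Nat.Prime 11 by norm_num).squarefree) hm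
  have h2 : Nat.gcd 11 m = 1 ∨ Nat.gcd 11 m = 11 :=
    (Nat.dvd_prime (show Nat.Prime 11 by norm_num)).1 (Nat.gcd_dvd_left 11 m)
  have h3 := h.2.2
  rcases h2 with h2 | h2
  · rw [h2] at h3
    omega
  · rw [h2] at h3
    omega

/-- the family of the pairs -/
noncomputable def fm {k : ℕ} (N m : Fin k → ℕ) : Finset (ℕ × ℕ) :=
  univ.image fun i => (N i, tw 11 (m i))

theorem mem_fm {k : ℕ} {N m : Fin k → ℕ} {p : ℕ × ℕ} :
    p ∈ fm N m ↔ ∃ i, (N i, tw 11 (m i)) = p := by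
  unfold fm
  simp

theorem good_fm {k : ℕ} (hk : 0 < k) {N m : Fin k → ℕ} (hN : ∀ i, Lev (N i))
    (hm : ∀ i, Squarefree (m i)) (hc : ∀ i, Cls (N i) (m i)) : Good (fm N m) := by
  have h11 : Squarefree 11 := (show Nat.Prime 11 by norm_num).squarefree
  refine ⟨⟨_, mem_fm.2 ⟨⟨0, hk⟩, rfl⟩⟩, ?_, 11, by norm_num, ?_⟩
  · intro p hp
    obtain ⟨i, rfl⟩ := mem_fm.1 hp
    exact ⟨hN i, (Pool.Agent.Run7.h424.J.tw_spec h11 (hm i)).1, tw11_mod (hm i) (cls4 (hc i))⟩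
  · intro p hp
    obtain ⟨i, rfl⟩ := mem_fm.1 hp
    have h := (Pool.Agent.Run7.h424.J.tw_spec h11 (hm i)).2.2
    refine cls_sq (y := Nat.gcd 11 (m i)) ?_
    have e : tw 11 (m i) * 11 * Nat.gcd 11 (m i) ^ 2 = m i * 11 ^ 2 := by
      calc tw 11 (m i) * 11 * Nat.gcd 11 (m i) ^ 2 = (tw 11 (m i) * Nat.gcd 11 (m i) ^ 2) * 11 := by
            ring
        _ = (11 * m i) * 11 := by rw [h]
        _ = m i * 11 ^ 2 := by ring
    show Cls (N i) (tw 11 (m i) * 11 * Nat.gcd 11 (m i) ^ 2)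
    rw [e]
    exact cls11 (hc i)

/-- a general lower bound for the number of twists -/
theorem count_low {R : ℕ → Prop} {iR : DecidablePred R} {c1 : ℝ} (hc1 : 0 < c1)
    (h : ∀ᶠ X : ℕ in atTop, c1 * X ≤ (((Icc 1 X).filter fun n => R n).card : ℝ)) {K : ℕ}
    (hK : 0 < K) (f : ℕ → ℤ) (P : ℤ → Prop) (hinj : ∀ a b, R a → R b → f a = f b → a = b)
    (hb : ∀ n, R n → |f n| ≤ n * K) (hP : ∀ n, R n → Squarefree (f n) ∧ P (f n)) :
    ∃ c : ℝ, 0 < c ∧ ∀ᶠ X : ℝ in atTop, c * (DX X).ncard ≤ ({d ∈ DX X | P d}.ncard : ℝ) := by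
  refine ⟨c1 / (8 * K), by positivity, ?_⟩
  obtain ⟨X0, hX0⟩ := eventually_atTop.1 h
  filter_upwards [eventually_ge_atTop (((X0 + 2) * K : ℕ) : ℝ), eventually_ge_atTop (4 * (K : ℝ)),
    eventually_ge_atTop 1] with X h1 h2 h3
  have hKr : (0 : ℝ) < K := by exact_mod_cast hK
  have hK1 : (1 : ℝ) ≤ K := by exact_mod_cast hK
  have hX : 0 < X := by linarith
  set Y := (⌈X⌉₊ - 1) / K with hY
  have hce : 0 < ⌈X⌉₊ := Nat.ceil_pos.2 hX
  have hfin : (DX X).Finite := by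
    rw [DX_eq]
    exact Finset.finite_toSet _
  -- the lower bound
  have h4 : ((Icc 1 Y).filter fun n => R n).card ≤ {d ∈ DX X | P d}.ncard := by
    rw [← Finset.card_image_of_injOn (f := f), ← Set.ncard_coe_finset]
    · refine Set.ncard_le_ncard ?_ (hfin.subset fun d hd => hd.1)
      intro d hd
      rw [Finset.mem_coe, mem_image] at hd
      obtain ⟨n, hn, rfl⟩ := hd
      rw [mem_filter, mem_Icc] at hn
      obtain ⟨⟨n1, n2⟩, n3⟩ := hn
      refine ⟨⟨(hP n n3).1, ?_⟩, (hP n n3).2⟩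
      have h5 : n * K ≤ ⌈X⌉₊ - 1 := (Nat.le_div_iff_mul_le hK).1 n2
      have h6 := hb n n3
      have h7 : (f n).natAbs < ⌈X⌉₊ := by
        have h8 : ((f n).natAbs : ℤ) ≤ ((n * K : ℕ) : ℤ) := by
          rw [Int.natCast_natAbs]
          push_cast
          exact h6
        have h9 : (f n).natAbs ≤ n * K := by exact_mod_cast h8
        omega
      rw [Nat.lt_ceil, Nat.cast_natAbs, Int.cast_abs] at h7
      exact h7
    · intro a ha b hb' hab
      rw [Finset.mem_coe, mem_filter] at ha hb'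
      exact hinj a b ha.2 hb'.2 hab
  -- the upper bound for the number of all twists
  have h5 : ((DX X).ncard : ℝ) ≤ 4 * X := by
    have h6 : (DX X).ncard ≤ (Finset.Ioo (-(⌈X⌉₊ : ℤ)) ⌈X⌉₊).card := by
      rw [← Set.ncard_coe_finset]
      refine Set.ncard_le_ncard ?_ (Finset.finite_toSet _)
      rintro d ⟨_, hd⟩
      rw [Finset.mem_coe, mem_Ioo]
      have h : d.natAbs < ⌈X⌉₊ := by
        rw [Nat.lt_ceil, Nat.cast_natAbs, Int.cast_abs]
        exact hd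
      constructor <;> omega
    rw [Int.card_Ioo] at h6
    have h7 : ((⌈X⌉₊ : ℤ) - -(⌈X⌉₊ : ℤ) - 1).toNat ≤ 2 * ⌈X⌉₊ := by omega
    have h8 : ((DX X).ncard : ℝ) ≤ ((2 * ⌈X⌉₊ : ℕ) : ℝ) := by exact_mod_cast h6.trans h7
    have h9 := Nat.ceil_lt_add_one hX.le
    push_cast at h8
    linarith
  -- the size of `Y`
  have h6 : X / K - 2 ≤ Y := by
    have h7 : (⌈X⌉₊ - 1 : ℕ) < K * (Y + 1) := by
      have := Nat.lt_mul_div_succ (⌈X⌉₊ - 1) hK
      rw [← hY] at this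
      exact this
    have h8 : X ≤ ⌈X⌉₊ := Nat.le_ceil X
    have h9 : (⌈X⌉₊ : ℝ) ≤ K * (Y + 1) := by
      have : ⌈X⌉₊ ≤ K * (Y + 1) := by omega
      exact_mod_cast this
    rw [sub_le_iff_le_add, div_le_iff₀ hKr]
    nlinarith
  have h7 : X0 ≤ Y := by
    rw [hY, Nat.le_div_iff_mul_le hK]
    have h8 : (X0 + 2) * K ≤ ⌈X⌉₊ := by
      have : (((X0 + 2) * K : ℕ) : ℝ) ≤ ⌈X⌉₊ := h1.trans (Nat.le_ceil X)
      exact_mod_cast this
    have h9 : X0 * K + 2 * K ≤ ⌈X⌉₊ := by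
      rw [← add_mul]
      exact h8
    omega
  have h8 := hX0 Y h7
  have h9 : (((Icc 1 Y).filter fun n => R n).card : ℝ) ≤ ({d ∈ DX X | P d}.ncard : ℝ) := by
    exact_mod_cast h4
  have h10 : X / K - 2 ≥ X / (2 * K) := by
    rw [ge_iff_le, div_le_iff₀ (by positivity)]
    have : (X / K - 2) * (2 * K) = 2 * X - 4 * K := by
      field_simp
      ring
    rw [this]
    linarith
  calc c1 / (8 * K) * (DX X).ncard ≤ c1 / (8 * K) * (4 * X) :=
        mul_le_mul_of_nonneg_left h5 (by positivity)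
    _ = c1 * (X / (2 * K)) := by
        field_simp
        ring
    _ ≤ c1 * Y := mul_le_mul_of_nonneg_left (h10.le.trans h6) hc1.le
    _ ≤ _ := h8.trans h9

/-- **simultaneous analytic rank zero** -/
theorem simul {k : ℕ} (hk : 0 < k) {N m : Fin k → ℕ} (hN : ∀ i, Lev (N i))
    (hm : ∀ i, Squarefree (m i)) (hc : ∀ i, Cls (N i) (m i)) {t v : Fin k → ℚ} {d0 : ℤ}
    (hd0 : d0 ≠ 0) (hv : ∀ i, v i ≠ 0) (h : ∀ i, t i * d0 = -(m i : ℚ) * v i ^ 2) :
    ∃ c : ℝ, 0 < c ∧ ∀ᶠ X : ℝ in atTop, c * (DX X).ncard ≤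
      ({d ∈ DX X | ∀ i, AnRank (tws (al (N i) * t i ^ 2) (be (N i) * t i ^ 3) d) 0}.ncard : ℝ) := by
  have h11 : Squarefree 11 := (show Nat.Prime 11 by norm_num).squarefree
  have hg := good_fm hk hN hm hc
  -- the number of the good `n`
  set T := (fm N m).image Prod.snd with hT
  have hlaw := Pool.Agent.Run7.h238.J.Mix.law hg (T := T) (Finset.Subset.refl _)
  rw [sdiff_self] at hlaw
  obtain ⟨c0, hc0, hcl⟩ := Pool.Agent.Run7.h238.J.Mix.class_pos hg
  have hη : 0 < Pool.Agent.N916.GB.eta := Pool.Agent.N916.GB.eta_pos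
  have hlim : 0 < Pool.Agent.N916.GB.eta ^ T.card * (1 - Pool.Agent.N916.GB.eta) ^
      (∅ : Finset ℕ).card := by
    rw [card_empty, pow_zero, mul_one]
    positivity
  set L := Pool.Agent.N916.GB.eta ^ T.card * (1 - Pool.Agent.N916.GB.eta) ^ (∅ : Finset ℕ).card
    with hL
  let R : ℕ → Prop := fun n => Squarefree n ∧ Com (fm N m) n ∧ ∀ p ∈ fm N m,
    (Pool.Agent.Run7.h238.J.Mix.Triv p.1 (-(tw p.2 n : ℤ)) ↔ p.2 ∈ T)
  have hR : ∀ᶠ X : ℕ in atTop, L / 2 * c0 * X ≤ (((Icc 1 X).filter fun n => R n).card : ℝ) := by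
    filter_upwards [hlaw.eventually (lt_mem_nhds (half_lt_self hlim)), hcl,
      eventually_gt_atTop 0] with X h1 h2 h3
    have hX : (0 : ℝ) < X := by exact_mod_cast h3
    have h4 : (0 : ℝ) < (((Icc 1 X).filter fun n => Squarefree n ∧ Com (fm N m) n).card : ℝ) :=
      lt_of_lt_of_le (by positivity) h2
    rw [lt_div_iff₀ h4] at h1
    refine le_trans ?_ h1.le
    rw [mul_assoc]
    exact mul_le_mul_of_nonneg_left h2 (by positivity)
  obtain ⟨D, hD, u, hu, hDu⟩ := exists_sqf (t := -(d0 : ℚ) * 11) (by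
    have : (d0 : ℚ) ≠ 0 := by exact_mod_cast hd0
    exact mul_ne_zero (neg_ne_zero.2 this) (by norm_num))
  refine count_low (R := R) (mul_pos (half_pos hlim) hc0) hR (K := D.natAbs) (Int.natAbs_pos.2 hD.ne_zero)
    (fun n => ee D n) _ ?_ ?_ ?_
  · intro a b ha hb hab
    exact ee_inj hD ha.1 hb.1 hab
  · intro n hn
    have := ee_le (D := D) (n := n)
    rw [Int.natCast_natAbs]
    exact this
  · intro n hn
    refine ⟨sqf_ee hD hn.1, fun i => ?_⟩
    have hmem : (N i, tw 11 (m i)) ∈ fm N m := mem_fm.2 ⟨i, rfl⟩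
    have hp := hg.2.1 _ hmem
    have hs := Pool.Agent.Run7.h424.J.tw_spec hp.2.1 hn.1
    have hcl' := Pool.Agent.Run7.h238.J.Mix.cls_tw hp.2.1 hn.1 (hn.2.1 _ hmem)
    have hq := (Pool.Agent.Run7.h238.J.Mix.triv_iff hp.1 hs.1 hcl').1
      ((hn.2.2 _ hmem).2 (mem_image_of_mem _ hmem))
    have h1 := (Pool.Agent.Run7.h424.J.tw_spec h11 (hm i)).2.2
    have hg' := ee_mul (D := D) (n := n)
    have hDg : ((D / (Nat.gcd n D.natAbs : ℤ) : ℤ) : ℚ) ≠ 0 := by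
      exact_mod_cast D_ne (n := n) hD
    -- the quantities
    have q1 : (tw 11 (m i) : ℚ) * (Nat.gcd 11 (m i) : ℚ) ^ 2 = 11 * (m i : ℚ) := by
      exact_mod_cast h1
    have q2 : (tw (tw 11 (m i)) n : ℚ) * (Nat.gcd (tw 11 (m i)) n : ℚ) ^ 2 =
        (tw 11 (m i) : ℚ) * n := by exact_mod_cast hs.2.2
    have q3 : ((ee D n : ℤ) : ℚ) * D = -(n : ℚ) * ((D / (Nat.gcd n D.natAbs : ℤ) : ℤ) : ℚ) ^ 2 := by
      exact_mod_cast hg'
    have hDq : (D : ℚ) ≠ 0 := by exact_mod_cast hD.ne_zero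
    have hd0q : (d0 : ℚ) ≠ 0 := by exact_mod_cast hd0
    have hgi : (Nat.gcd 11 (m i) : ℚ) ≠ 0 := by
      exact_mod_cast (Nat.gcd_pos_of_pos_left _ (by norm_num)).ne'
    have hgn : (Nat.gcd (tw 11 (m i)) n : ℚ) ≠ 0 := by
      exact_mod_cast (Nat.gcd_pos_of_pos_right _ (Nat.pos_of_ne_zero hn.1.ne_zero)).ne'
    set G := ((D / (Nat.gcd n D.natAbs : ℤ) : ℤ) : ℚ) with hG
    set g1 := (Nat.gcd 11 (m i) : ℚ) with hg1
    set g2 := (Nat.gcd (tw 11 (m i)) n : ℚ) with hg2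
    refine rank_gen (hN i) rfl rfl hs.1 hcl' hq
      (v := v i * G * g1 * g2 / (d0 * 11) * u) ?_ ?_
    · have := hv i
      positivity
    · have h2 := h i
      -- `t d = t ee`
      have e1 : ((ee D n : ℤ) : ℚ) * (-(d0 : ℚ) * 11) = -(n : ℚ) * G ^ 2 * u ^ 2 := by
        rw [hDu]
        linear_combination (u ^ 2) * q3
      have e2 : t i * ((ee D n : ℤ) : ℚ) * (d0 ^ 2 * 11 ^ 2) =
          -(tw (tw 11 (m i)) n : ℚ) * (v i * G * g1 * g2 * u) ^ 2 := by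
        have e3 : t i * ((ee D n : ℤ) : ℚ) * (d0 ^ 2 * 11 ^ 2) =
            (t i * d0) * (((ee D n : ℤ) : ℚ) * (-(d0 : ℚ) * 11)) * (-11) := by ring
        rw [e3, h2, e1]
        linear_combination (-(v i) ^ 2 * G ^ 2 * u ^ 2 * n) * q1 * (-1) +
          (-(v i) ^ 2 * G ^ 2 * u ^ 2 * g1 ^ 2) * q2 * (-1)
      have e4 : (d0 : ℚ) ^ 2 * 11 ^ 2 ≠ 0 := by positivity
      have e5 : t i * ((ee D n : ℤ) : ℚ) = (t i * ((ee D n : ℤ) : ℚ) * (d0 ^ 2 * 11 ^ 2)) /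
          (d0 ^ 2 * 11 ^ 2) := by
        field_simp
      rw [e5, e2]
      field_simp

end Run7.h238.G15
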