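import Pool.Agent.Run7.h238.G15.Dens

/-!
# Lower bounds for the number of twists
-/

set_option autoImplicit false

open scoped Classical

namespace Run7.h238.G15

open Finset Filter Topology
open Pool.Agent.N969.P15 (Qc)
open Pool.Agent.N916.GB (eta eta_bounds eta_pos density_Qc)

/-- the squarefree integers `d` with `|d| < X` -/
def DX (X : ℝ) : Set ℤ := {d | Squarefree d ∧ |(d : ℝ)| < X}

theorem DX_eq (X : ℝ) : DX X = (Dd ⌈X⌉₊ : Set ℤ) := by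
  ext d
  simp only [DX, Set.mem_setOf_eq, Dd, Finset.coe_filter, mem_Ioo]
  have h : |(d : ℝ)| < X ↔ d.natAbs < ⌈X⌉₊ := by
    rw [Nat.lt_ceil, Nat.cast_natAbs, Int.cast_abs]
  rw [h]
  constructor
  · rintro ⟨h1, h2⟩
    exact ⟨by omega, h1⟩
  · rintro ⟨h1, h2⟩
    exact ⟨h2, by omega⟩

theorem finite_DX (X : ℝ) : (DX X).Finite := by
  rw [DX_eq]
  exact Finset.finite_toSet _

theorem ncard_DX (X : ℝ) : (DX X).ncard = 2 * Tt (⌈X⌉₊ - 1) := by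
  rw [DX_eq, Set.ncard_coe_finset, card_Dd]

/-- the members of the class up to `Y` -/
theorem lim_Aa : Tendsto (fun Y : ℕ => (Aa Y : ℝ) / Y) atTop
    (𝓝 (5 / 16 / Real.pi ^ 2 * eta)) := by
  have h1 := (lim_AT.mul (lim_Tt.const_mul 2))
  have e : 5 / 192 * eta * (2 * (6 / Real.pi ^ 2)) = 5 / 16 / Real.pi ^ 2 * eta := by ring
  rw [e] at h1
  refine h1.congr' ?_
  have hpos2 := lim_Tt.eventually (lt_mem_nhds (show (0 : ℝ) < 6 / Real.pi ^ 2 by positivity))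
  filter_upwards [hpos2, eventually_gt_atTop 0] with Y hY2 hY3
  have y0 : (Y : ℝ) ≠ 0 := by exact_mod_cast hY3.ne'
  have t0 : (Tt Y : ℝ) ≠ 0 := by
    intro h
    rw [h] at hY2
    simp at hY2
  field_simp

theorem lim_floor (D : ℕ) (hD : 0 < D) :
    Tendsto (fun X : ℝ => (((⌈X⌉₊ - 1) / D : ℕ) : ℝ) / X) atTop (𝓝 (1 / D)) := by
  have d0 : (0 : ℝ) < D := by exact_mod_cast hD
  have h1 : Tendsto (fun X : ℝ => (1 / (D : ℝ)) - (2 / X)) atTop (𝓝 (1 / D)) := by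
    have := (tendsto_const_nhds (x := (2 : ℝ))).div_atTop (tendsto_id (α := ℝ) (x := atTop))
    have h := (tendsto_const_nhds (x := (1 / (D : ℝ)))).sub this
    rw [sub_zero] at h
    exact h
  refine tendsto_of_tendsto_of_tendsto_of_le_of_le' h1 (tendsto_const_nhds (x := (1 / (D : ℝ)))) ?_ ?_
  · filter_upwards [eventually_gt_atTop 1] with X hX
    have x0 : 0 < X := by linarith
    have h2 : 0 < ⌈X⌉₊ := Nat.ceil_pos.2 x0
    have h3 : X ≤ ⌈X⌉₊ := Nat.le_ceil X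
    have h4 : (⌈X⌉₊ - 1) < D * ((⌈X⌉₊ - 1) / D) + D := by
      have := Nat.div_add_mod (⌈X⌉₊ - 1) D
      have := Nat.mod_lt (⌈X⌉₊ - 1) hD
      omega
    have h5 : ((⌈X⌉₊ : ℝ) - 1) < D * (((⌈X⌉₊ - 1) / D : ℕ) : ℝ) + D := by
      have h6 : (((⌈X⌉₊ - 1 : ℕ)) : ℝ) < ((D * ((⌈X⌉₊ - 1) / D) + D : ℕ) : ℝ) := by exact_mod_cast h4
      rw [Nat.cast_sub (by omega : 1 ≤ ⌈X⌉₊)] at h6
      push_cast at h6
      push_cast
      exact h6
    have d1 : (1 : ℝ) ≤ D := by exact_mod_cast hD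
    rw [le_div_iff₀ x0, sub_mul, div_mul_cancel₀ _ x0.ne']
    have h7 : X - 1 - D < D * (((⌈X⌉₊ - 1) / D : ℕ) : ℝ) := by linarith
    have h8 : (X - 1 - D) / D < (((⌈X⌉₊ - 1) / D : ℕ) : ℝ) := by
      rw [div_lt_iff₀ d0]
      linarith
    have h9 : 1 / (D : ℝ) * X - 2 ≤ (X - 1 - D) / D := by
      have : (X - 1 - D) / D = 1 / D * X - 1 / D - 1 := by
        field_simp
      rw [this]
      have : 1 / (D : ℝ) ≤ 1 := by
        rw [div_le_one d0]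
        exact d1
      linarith
    linarith
  · filter_upwards [eventually_gt_atTop 1] with X hX
    have x0 : 0 < X := by linarith
    rw [div_le_iff₀ x0]
    have h1 : (((⌈X⌉₊ - 1) / D : ℕ) : ℝ) ≤ ((⌈X⌉₊ - 1 : ℕ) : ℝ) / D := Nat.cast_div_le
    have h2 : (((⌈X⌉₊ - 1 : ℕ)) : ℝ) ≤ X := by
      have h3 : (⌈X⌉₊ : ℝ) < X + 1 := Nat.ceil_lt_add_one x0.le
      have h2 : 0 < ⌈X⌉₊ := Nat.ceil_pos.2 x0
      rw [Nat.cast_sub (by omega : 1 ≤ ⌈X⌉₊)]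
      push_cast
      linarith
    calc (((⌈X⌉₊ - 1) / D : ℕ) : ℝ) ≤ ((⌈X⌉₊ - 1 : ℕ) : ℝ) / D := h1
      _ ≤ X / D := by gcongr
      _ = 1 / D * X := by ring

/-- the number of members of the class up to `X / D` -/
theorem lim_AX (D : ℕ) (hD : 0 < D) :
    Tendsto (fun X : ℝ => (Aa ((⌈X⌉₊ - 1) / D) : ℝ) / X) atTop
      (𝓝 (5 / 16 / Real.pi ^ 2 * eta / D)) := by
  have h0 : Tendsto (fun X : ℝ => (⌈X⌉₊ - 1) / D) atTop atTop := by
    refine (Nat.tendsto_div_const_atTop hD.ne').comp ?_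
    refine (tendsto_sub_atTop_nat 1).comp ?_
    exact tendsto_nat_ceil_atTop
  have h1 := (lim_Aa.comp h0).mul (lim_floor D hD)
  have e : 5 / 16 / Real.pi ^ 2 * eta * (1 / D) = 5 / 16 / Real.pi ^ 2 * eta / D := by ring
  rw [e] at h1
  refine h1.congr' ?_
  have h2 := h0.eventually (eventually_gt_atTop 0)
  filter_upwards [h2] with X hX
  have y0 : (((⌈X⌉₊ - 1) / D : ℕ) : ℝ) ≠ 0 := by exact_mod_cast hX.ne'
  show (Aa ((⌈X⌉₊ - 1) / D) : ℝ) / (((⌈X⌉₊ - 1) / D : ℕ) : ℝ) * ((((⌈X⌉₊ - 1) / D : ℕ) : ℝ) / X) = _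
  rw [div_mul_div_comm, mul_comm (Aa ((⌈X⌉₊ - 1) / D) : ℝ) _, mul_div_mul_left _ _ y0]

theorem lim_DX : Tendsto (fun X : ℝ => ((DX X).ncard : ℝ) / X) atTop (𝓝 (12 / Real.pi ^ 2)) := by
  have h0 : Tendsto (fun X : ℝ => (⌈X⌉₊ - 1) / 1) atTop atTop := by
    refine (Nat.tendsto_div_const_atTop one_ne_zero).comp ?_
    refine (tendsto_sub_atTop_nat 1).comp ?_
    exact tendsto_nat_ceil_atTop
  have h1 := ((lim_Tt.comp h0).const_mul 2).mul (lim_floor 1 one_pos)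
  have e : 2 * (6 / Real.pi ^ 2) * (1 / ((1 : ℕ) : ℝ)) = 12 / Real.pi ^ 2 := by
    push_cast
    ring
  rw [e] at h1
  refine h1.congr' ?_
  have h2 := h0.eventually (eventually_gt_atTop 0)
  filter_upwards [h2] with X hX
  rw [Nat.div_one] at hX
  have y0 : ((⌈X⌉₊ - 1 : ℕ) : ℝ) ≠ 0 := by exact_mod_cast hX.ne'
  rw [ncard_DX]
  show 2 * ((Tt ((⌈X⌉₊ - 1) / 1) : ℝ) / (((⌈X⌉₊ - 1) / 1 : ℕ) : ℝ)) *
    ((((⌈X⌉₊ - 1) / 1 : ℕ) : ℝ) / X) = _
  rw [Nat.div_one, mul_assoc, div_mul_div_comm, mul_comm (Tt (⌈X⌉₊ - 1) : ℝ) _,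
    mul_div_mul_left _ _ y0]
  push_cast
  ring

/-- the members of the class -/
def Cq (n : ℕ) : Prop := Squarefree n ∧ (n % 60 = 23 ∨ n % 60 = 47) ∧ Qc n

/-- a general lower bound: an injective family indexed by the class without one element -/
theorem lower_gen (D : ℕ) (hD : 0 < D) (m : ℕ) (P : ℤ → Prop) (f : ℕ → ℤ)
    (hinj : ∀ a b, Cq a → Cq b → f a = f b → a = b)
    (hle : ∀ n, Cq n → n ≠ m → |f n| ≤ n * D) (hP : ∀ n, Cq n → n ≠ m → P (f n)) (X : ℝ)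
    (hX : 0 < X) :
    Aa ((⌈X⌉₊ - 1) / D) ≤ {d : ℤ | |(d : ℝ)| < X ∧ P d}.ncard + 1 := by
  have hfin : {d : ℤ | |(d : ℝ)| < X ∧ P d}.Finite := by
    refine Set.Finite.subset (Set.finite_Ioo (-(⌈X⌉₊ : ℤ)) ⌈X⌉₊) ?_
    rintro d ⟨h1, _⟩
    have h : d.natAbs < ⌈X⌉₊ := by
      rw [Nat.lt_ceil, Nat.cast_natAbs, Int.cast_abs]
      exact h1
    constructor <;> omega
  set A := (Icc 1 ((⌈X⌉₊ - 1) / D)).filter
    fun n => Squarefree n ∧ (n % 60 = 23 ∨ n % 60 = 47) ∧ Qc n with hA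
  have h1 : Aa ((⌈X⌉₊ - 1) / D) = A.card := rfl
  have h2 : A.card ≤ (A.erase m).card + 1 := by
    have := Finset.pred_card_le_card_erase (s := A) (a := m)
    omega
  have h3 : (A.erase m).card ≤ {d : ℤ | |(d : ℝ)| < X ∧ P d}.ncard := by
    rw [← Finset.card_image_of_injOn (f := f), ← Set.ncard_coe_finset]
    · refine Set.ncard_le_ncard ?_ hfin
      intro d hd
      rw [Finset.mem_coe, mem_image] at hd
      obtain ⟨n, hn, rfl⟩ := hd
      rw [mem_erase, hA, mem_filter, mem_Icc] at hn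
      obtain ⟨hm, ⟨n1, n2⟩, n3⟩ := hn
      refine ⟨?_, hP n n3 hm⟩
      have h4 := hle n n3 hm
      have h5 : n * D ≤ ⌈X⌉₊ - 1 := (Nat.le_div_iff_mul_le hD).1 n2
      have h6 : 0 < ⌈X⌉₊ := Nat.ceil_pos.2 hX
      have h7 : (f n).natAbs < ⌈X⌉₊ := by
        have h8 : ((f n).natAbs : ℤ) ≤ ((n * D : ℕ) : ℤ) := by
          rw [Int.natCast_natAbs]
          push_cast
          exact h4
        have h9 : (f n).natAbs ≤ n * D := by exact_mod_cast h8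
        omega
      rw [Nat.lt_ceil, Nat.cast_natAbs, Int.cast_abs] at h7
      exact h7
    · intro a ha b hb h
      rw [Finset.mem_coe, mem_erase, hA, mem_filter, mem_Icc] at ha hb
      exact hinj a b ha.2.2 hb.2.2 h
  omega

end Run7.h238.G15
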