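import Mathlib

/-!
# The twists of a twist
-/

set_option autoImplicit false

namespace Run7.h238.G15

theorem exists_sqf {t : ℚ} (ht : t ≠ 0) :
    ∃ D : ℤ, Squarefree D ∧ ∃ u : ℚ, u ≠ 0 ∧ t = D * u ^ 2 := by
  obtain ⟨a, b, hab, ha⟩ := Nat.sq_mul_squarefree (t.num * t.den).natAbs
  have hd : (t.den : ℚ) ≠ 0 := by exact_mod_cast t.den_ne_zero
  have hn : t.num ≠ 0 := Rat.num_ne_zero.2 ht
  have h0 : t.num * t.den ≠ 0 := mul_ne_zero hn (by exact_mod_cast t.den_ne_zero)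
  have hb : b ≠ 0 := by
    rintro rfl
    rw [zero_pow two_ne_zero, zero_mul] at hab
    exact h0 (Int.natAbs_eq_zero.1 hab.symm)
  have e0 : t = t.num / t.den := (Rat.num_div_den t).symm
  rcases Int.natAbs_eq (t.num * t.den) with h | h
  · refine ⟨a, Int.squarefree_natCast.2 ha, b / t.den, div_ne_zero (by exact_mod_cast hb) hd, ?_⟩
    have h1 : (t.num : ℚ) * t.den = b ^ 2 * a := by
      rw [← hab] at h
      exact_mod_cast h
    have h2 : t * (t.den : ℚ) ^ 2 = b ^ 2 * a := by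
      rw [← h1]
      nth_rewrite 1 [e0]
      field_simp
    field_simp
    linear_combination h2
  · refine ⟨-a, ?_, b / t.den, div_ne_zero (by exact_mod_cast hb) hd, ?_⟩
    · intro y hy
      exact (Int.squarefree_natCast.2 ha) y ((dvd_neg).1 hy)
    have h1 : (t.num : ℚ) * t.den = -(b ^ 2 * a) := by
      rw [← hab] at h
      exact_mod_cast h
    have h2 : t * (t.den : ℚ) ^ 2 = -(b ^ 2 * a) := by
      rw [← h1]
      nth_rewrite 1 [e0]
      field_simp
    push_cast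
    field_simp
    linear_combination h2

/-- the squarefree integer `e` with `e D` in the class of `-n` -/
def ee (D : ℤ) (n : ℕ) : ℤ :=
  -((n / Nat.gcd n D.natAbs : ℕ) : ℤ) * (D / (Nat.gcd n D.natAbs : ℤ))

section

variable {D : ℤ} {n : ℕ} (hD : Squarefree D) (hn : Squarefree n)

theorem gcd_dvd : ((Nat.gcd n D.natAbs : ℕ) : ℤ) ∣ D := by
  rw [Int.natCast_dvd]
  exact Nat.gcd_dvd_right _ _

include hn in
theorem gcd_pos : 0 < Nat.gcd n D.natAbs := Nat.gcd_pos_of_pos_left _ (Nat.pos_of_ne_zero hn.ne_zero)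

include hD in
theorem D_ne : D / (Nat.gcd n D.natAbs : ℤ) ≠ 0 := by
  intro h
  have h1 := Int.mul_ediv_cancel' (gcd_dvd (D := D) (n := n))
  rw [h, mul_zero] at h1
  exact hD.ne_zero h1.symm

include hn in
theorem n_ne : n / Nat.gcd n D.natAbs ≠ 0 := by
  intro h
  have h1 := Nat.mul_div_cancel' (Nat.gcd_dvd_left n D.natAbs)
  rw [h, mul_zero] at h1
  exact hn.ne_zero h1.symm

theorem ee_mul : ee D n * D = -(n : ℤ) * (D / (Nat.gcd n D.natAbs : ℤ)) ^ 2 := by
  have h1 := Int.mul_ediv_cancel' (gcd_dvd (D := D) (n := n))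
  have h2 : ((Nat.gcd n D.natAbs : ℕ) : ℤ) * ((n / Nat.gcd n D.natAbs : ℕ) : ℤ) = n := by
    exact_mod_cast Nat.mul_div_cancel' (Nat.gcd_dvd_left n D.natAbs)
  unfold ee
  set x := D / (Nat.gcd n D.natAbs : ℤ)
  set y := ((n / Nat.gcd n D.natAbs : ℕ) : ℤ)
  set g := ((Nat.gcd n D.natAbs : ℕ) : ℤ)
  rw [← h2]
  nth_rewrite 1 [← h1]
  ring

include hn hD in
theorem sqf_ee : Squarefree (ee D n) := by
  have h1 := Int.mul_ediv_cancel' (gcd_dvd (D := D) (n := n))
  have h2 : (Nat.gcd n D.natAbs) * (n / Nat.gcd n D.natAbs) = n :=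
    Nat.mul_div_cancel' (Nat.gcd_dvd_left n D.natAbs)
  have h3 : (D / (Nat.gcd n D.natAbs : ℤ)).natAbs = D.natAbs / Nat.gcd n D.natAbs := by
    rw [Int.natAbs_ediv_of_dvd (gcd_dvd (D := D) (n := n))]
    rfl
  rw [← Int.squarefree_natAbs]
  unfold ee
  rw [Int.natAbs_mul, Int.natAbs_neg, Int.natAbs_natCast, h3]
  rw [Nat.squarefree_mul]
  · exact ⟨hn.squarefree_of_dvd (Nat.div_dvd_of_dvd (Nat.gcd_dvd_left _ _)),
      (Int.squarefree_natAbs.2 hD).squarefree_of_dvd (Nat.div_dvd_of_dvd (Nat.gcd_dvd_right _ _))⟩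
  · exact Nat.coprime_div_gcd_div_gcd (gcd_pos hn)

theorem ee_le : |ee D n| ≤ n * |D| := by
  have h3 : (D / (Nat.gcd n D.natAbs : ℤ)).natAbs = D.natAbs / Nat.gcd n D.natAbs := by
    rw [Int.natAbs_ediv_of_dvd (gcd_dvd (D := D) (n := n))]
    rfl
  have h4 : (ee D n).natAbs ≤ n * D.natAbs := by
    unfold ee
    rw [Int.natAbs_mul, Int.natAbs_neg, Int.natAbs_natCast, h3]
    exact Nat.mul_le_mul (Nat.div_le_self _ _) (Nat.div_le_self _ _)
  rw [← Int.natCast_natAbs, ← Int.natCast_natAbs]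
  exact_mod_cast h4

/-- a squarefree number is determined by its class modulo squares -/
theorem eq_of_sq {a b : ℕ} (ha : Squarefree a) (hb : Squarefree b) {x y : ℕ} (hx : x ≠ 0)
    (hy : y ≠ 0) (h : a * x ^ 2 = b * y ^ 2) : a = b := by
  refine Nat.eq_of_factorization_eq ha.ne_zero hb.ne_zero fun p => ?_
  have h1 := congrArg (fun m => m.factorization p) h
  rw [Nat.factorization_mul ha.ne_zero (pow_ne_zero _ hx), Nat.factorization_mul hb.ne_zero
    (pow_ne_zero _ hy), Nat.factorization_pow, Nat.factorization_pow] at h1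
  simp only [Finsupp.add_apply, Finsupp.smul_apply, smul_eq_mul] at h1
  have h2 := ha.natFactorization_le_one p
  have h3 := hb.natFactorization_le_one p
  omega

include hD in
theorem ee_inj {a b : ℕ} (ha : Squarefree a) (hb : Squarefree b) (h : ee D a = ee D b) :
    a = b := by
  have h1 := ee_mul (D := D) (n := a)
  have h2 := ee_mul (D := D) (n := b)
  rw [h, h2] at h1
  have h3 := congrArg Int.natAbs h1
  rw [Int.natAbs_mul, Int.natAbs_mul, Int.natAbs_neg, Int.natAbs_neg, Int.natAbs_natCast,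
    Int.natAbs_natCast, Int.natAbs_pow, Int.natAbs_pow] at h3
  exact (eq_of_sq hb ha (Int.natAbs_ne_zero.2 (D_ne hD)) (Int.natAbs_ne_zero.2 (D_ne hD)) h3).symm

theorem ee_ne_one (h : n ≠ D.natAbs) : ee D n ≠ 1 := by
  intro h1
  have h3 : (D / (Nat.gcd n D.natAbs : ℤ)).natAbs = D.natAbs / Nat.gcd n D.natAbs := by
    rw [Int.natAbs_ediv_of_dvd (gcd_dvd (D := D) (n := n))]
    rfl
  have h4 := congrArg Int.natAbs h1
  unfold ee at h4
  rw [Int.natAbs_mul, Int.natAbs_neg, Int.natAbs_natCast, h3] at h4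
  obtain ⟨h5, h6⟩ := mul_eq_one.1 h4
  have h7 := Nat.mul_div_cancel' (Nat.gcd_dvd_left n D.natAbs)
  have h8 := Nat.mul_div_cancel' (Nat.gcd_dvd_right n D.natAbs)
  rw [h5] at h7
  rw [h6] at h8
  omega

end

/-- the discriminants of the quadratic fields -/
def FundDisc (Δ : ℤ) : Prop :=
  (Squarefree Δ ∧ Δ % 4 = 1 ∧ Δ ≠ 1) ∨ ∃ m : ℤ, Δ = 4 * m ∧ Squarefree m ∧ (m % 4 = 2 ∨ m % 4 = 3)

/-- the discriminant of `ℚ(√e)` -/
def disc (e : ℤ) : ℤ := if e % 4 = 1 then e else 4 * e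

theorem disc_cases (e : ℤ) : disc e = e ∨ disc e = 4 * e := by
  unfold disc
  split_ifs
  · exact Or.inl rfl
  · exact Or.inr rfl

theorem fundDisc_disc {e : ℤ} (he : Squarefree e) (h1 : e ≠ 1) : FundDisc (disc e) := by
  unfold disc
  have h4 : ¬ (4 : ℤ) ∣ e := by
    intro h
    have h2 := he 2 (by simpa using h)
    rw [Int.isUnit_iff] at h2
    omega
  split_ifs with h
  · exact Or.inl ⟨he, h, h1⟩
  · exact Or.inr ⟨e, rfl, he, by omega⟩

theorem disc_inj {a b : ℤ} (ha : Squarefree a) (hb : Squarefree b) (h : disc a = disc b) :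
    a = b := by
  have h4 : ∀ e : ℤ, Squarefree e → ¬ (4 : ℤ) ∣ e := by
    intro e he h
    have h2 := he 2 (by simpa using h)
    rw [Int.isUnit_iff] at h2
    omega
  have ha4 := h4 a ha
  have hb4 := h4 b hb
  unfold disc at h
  split_ifs at h with h1 h2 h2
  · exact h
  · exact absurd (Dvd.intro _ h.symm) ha4
  · exact absurd (Dvd.intro _ h) hb4
  · omega

theorem disc_le (e : ℤ) : |disc e| ≤ 4 * |e| := by
  rcases disc_cases e with h | h
  · rw [h]
    have := abs_nonneg e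
    linarith
  · rw [h, abs_mul]
    norm_num

theorem disc_sq (e : ℤ) : ∃ w : ℤ, w ≠ 0 ∧ disc e = e * w ^ 2 := by
  rcases disc_cases e with h | h
  · exact ⟨1, one_ne_zero, by rw [h]; ring⟩
  · exact ⟨2, two_ne_zero, by rw [h]; ring⟩

end Run7.h238.G15
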