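import Pool.Agent.Run7.h238.G15.Gold
import Pool.Agent.Run7.h238.G15.Inj
import Pool.Agent.Run7.h238.G15.Tw

/-!
# The twists of the curves with the `j`-invariant of `X_0(15)`
-/

set_option autoImplicit false

open WeierstrassCurve Filter Topology

namespace Run7.h238.G15

open Pool.Agent.N916.GB (eta eta_bounds eta_pos density_Qc)
open Run7.h555.P15 (WT)

/-- the quadratic twist by `d` of `W`: `y² = x³ - 27 c₄ d² x - 54 c₆ d³` -/
noncomputable def qtwist (W : WeierstrassCurve ℚ) (d : ℤ) : WeierstrassCurve ℚ :=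
  ⟨0, 0, 0, -27 * W.c₄ * d ^ 2, -54 * W.c₆ * d ^ 3⟩

/-- the `L`-function of `W` does not vanish at the centre -/
def NonzeroAtOne (W : WeierstrassCurve ℚ) : Prop := ∃ L : ℂ → ℂ, IsLFunction W L ∧ L 1 ≠ 0

/-- the number of quadratic fields, with discriminant smaller than `x` in absolute value, for which
the twist has a nonzero central value -/
noncomputable def NC (W : WeierstrassCurve ℚ) (x : ℝ) : ℕ :=
  {Δ : ℤ | |(Δ : ℝ)| < x ∧ FundDisc Δ ∧ NonzeroAtOne (qtwist W Δ)}.ncard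

/-- the parameter of a curve with this `j`-invariant -/
theorem exists_t {x y D : ℚ} (hD : D ≠ 0) (h1 : x ^ 3 = 481 ^ 3 / 15 ^ 4 * D)
    (h2 : x ^ 3 - y ^ 2 = 1728 * D) : ∃ t : ℚ, t ≠ 0 ∧ x = 481 * t ^ 2 ∧ y = 4879 * t ^ 3 := by
  have hx : x ≠ 0 := by
    rintro rfl
    have : (481 : ℚ) ^ 3 / 15 ^ 4 * D ≠ 0 := mul_ne_zero (by norm_num) hD
    apply this
    rw [← h1]
    norm_num
  have hy2 : y ^ 2 = (481 ^ 3 / 15 ^ 4 - 1728) * D := by linear_combination h1 - h2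
  have hy : y ≠ 0 := by
    rintro rfl
    have : ((481 : ℚ) ^ 3 / 15 ^ 4 - 1728) * D ≠ 0 := mul_ne_zero (by norm_num) hD
    apply this
    rw [← hy2]
    norm_num
  have h3 : y ^ 2 * 481 ^ 3 = x ^ 3 * 4879 ^ 2 := by
    rw [hy2, h1]
    ring
  refine ⟨(y * 481) / (x * 4879), by positivity, ?_, ?_⟩
  · field_simp
    linear_combination -h3
  · field_simp
    linear_combination (-1 : ℚ) * h3

theorem exists_t' {W : WeierstrassCurve ℚ} [W.IsElliptic] (hj : W.j = 481 ^ 3 / 15 ^ 4) :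
    ∃ t : ℚ, t ≠ 0 ∧ W.c₄ = 481 * t ^ 2 ∧ W.c₆ = 4879 * t ^ 3 := by
  have hD : W.Δ ≠ 0 := (W.isUnit_Δ).ne_zero
  refine exists_t hD ?_ ?_
  · rw [← hj, WeierstrassCurve.j, ← WeierstrassCurve.coe_Δ']
    field_simp
    rw [Units.inv_mul_cancel_right]
  · rw [← W.c_relation]

/-- the twists which are twists of `X_0(15)` by `-n` -/
theorem nonzero_qtwist {W : WeierstrassCurve ℚ} {t : ℚ} (h4 : W.c₄ = 481 * t ^ 2)
    (h6 : W.c₆ = 4879 * t ^ 3) {n : ℕ} (hn : Cq n) {Δ : ℤ} {v : ℚ} (hv : v ≠ 0)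
    (hA : t * Δ = -n * v ^ 2) : NonzeroAtOne (qtwist W Δ) := by
  refine exists_L_ne hn.1 hn.2.1 hn.2.2 ?_
  have h := isModel_sq (n := n) (by have := hn.2.1; omega) hv hA
  have e : qtwist W Δ = ⟨0, 0, 0, -12987 * (t * Δ) ^ 2, -263466 * (t * Δ) ^ 3⟩ := by
    unfold qtwist
    rw [h4, h6]
    congr 1 <;> ring
  rw [e]
  exact h

/-- **the lower bound** -/
theorem lower_NC {W : WeierstrassCurve ℚ} {t : ℚ} (h4 : W.c₄ = 481 * t ^ 2)
    (h6 : W.c₆ = 4879 * t ^ 3) {D : ℤ} (hD : Squarefree D) {u : ℚ} (hu : u ≠ 0)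
    (ht : t = D * u ^ 2) {x : ℝ} (hx : 0 < x) :
    Aa ((⌈x⌉₊ - 1) / (4 * D.natAbs)) ≤ NC W x + 1 := by
  have hD0 : 0 < D.natAbs := Int.natAbs_pos.2 hD.ne_zero
  refine lower_gen (4 * D.natAbs) (by omega) D.natAbs
    (fun Δ => FundDisc Δ ∧ NonzeroAtOne (qtwist W Δ)) (fun n => disc (ee D n)) ?_ ?_ ?_ x hx
  · intro a b ha hb h
    exact ee_inj hD ha.1 hb.1 (disc_inj (sqf_ee hD ha.1) (sqf_ee hD hb.1) h)
  · intro n hn _
    refine (disc_le _).trans ?_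
    have := ee_le (D := D) (n := n)
    have e : ((4 * D.natAbs : ℕ) : ℤ) = 4 * |D| := by
      push_cast
      rfl
    rw [e]
    linarith
  · intro n hn hm
    refine ⟨fundDisc_disc (sqf_ee hD hn.1) (ee_ne_one hm), ?_⟩
    obtain ⟨w, hw, hd⟩ := disc_sq (ee D n)
    have hg := ee_mul (D := D) (n := n)
    have hDg : ((D / (Nat.gcd n D.natAbs : ℤ) : ℤ) : ℚ) ≠ 0 := by
      exact_mod_cast D_ne (n := n) hD
    refine nonzero_qtwist h4 h6 hn (v := ((D / (Nat.gcd n D.natAbs : ℤ) : ℤ) : ℚ) * w * u) ?_ ?_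
    · exact mul_ne_zero (mul_ne_zero hDg (by exact_mod_cast hw)) hu
    · have hg' : ((ee D n : ℤ) : ℚ) * D = -(n : ℚ) * ((D / (Nat.gcd n D.natAbs : ℤ) : ℤ) : ℚ) ^ 2 := by
        exact_mod_cast hg
      show t * ((disc (ee D n) : ℤ) : ℚ) = _
      rw [hd, ht]
      push_cast
      push_cast at hg'
      linear_combination (u ^ 2 * (w : ℚ) ^ 2) * hg'

theorem lower_NC' {W : WeierstrassCurve ℚ} [W.IsElliptic] (hj : W.j = 481 ^ 3 / 15 ^ 4) :
    ∃ c : ℝ, 0 < c ∧ ∀ᶠ x : ℝ in atTop, c * x ≤ NC W x := by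
  obtain ⟨t, ht, h4, h6⟩ := exists_t' hj
  obtain ⟨D, hD, u, hu, htD⟩ := exists_sqf ht
  have hD0 : 0 < 4 * D.natAbs := by
    have := Int.natAbs_pos.2 hD.ne_zero
    omega
  have hlim := lim_AX (4 * D.natAbs) hD0
  set C := 5 / 16 / Real.pi ^ 2 * eta / ((4 * D.natAbs : ℕ) : ℝ) with hC
  have hCpos : 0 < C := by
    have h1 : (0 : ℝ) < ((4 * D.natAbs : ℕ) : ℝ) := by exact_mod_cast hD0
    have := eta_pos
    rw [hC]
    positivity
  refine ⟨C / 4, by positivity, ?_⟩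
  filter_upwards [hlim.eventually (lt_mem_nhds (show C / 2 < C by linarith)),
    eventually_gt_atTop 0, eventually_ge_atTop (4 / C)] with x h1 h2 h3
  rw [lt_div_iff₀ h2] at h1
  have h5 := lower_NC h4 h6 hD hu htD h2
  have h5' : (Aa ((⌈x⌉₊ - 1) / (4 * D.natAbs)) : ℝ) ≤ NC W x + 1 := by exact_mod_cast h5
  rw [div_le_iff₀ hCpos] at h3
  linarith

/-- the curve `X_0(15)` -/
def X015 : WeierstrassCurve ℚ := ⟨1, 1, 1, -10, -10⟩

theorem c4_X015 : X015.c₄ = 481 * 1 ^ 2 := by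
  norm_num [X015, WeierstrassCurve.c₄, WeierstrassCurve.b₂, WeierstrassCurve.b₄]

theorem c6_X015 : X015.c₆ = 4879 * 1 ^ 3 := by
  norm_num [X015, WeierstrassCurve.c₆, WeierstrassCurve.b₂, WeierstrassCurve.b₄, WeierstrassCurve.b₆]

theorem lower_X015 {x : ℝ} (hx : 0 < x) : Aa ((⌈x⌉₊ - 1) / 1) ≤ NC X015 x + 1 := by
  refine lower_gen 1 one_pos 0 (fun Δ => FundDisc Δ ∧ NonzeroAtOne (qtwist X015 Δ))
    (fun n => -(n : ℤ)) ?_ ?_ ?_ x hx
  · intro a b _ _ h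
    simpa using h
  · intro n _ _
    rw [abs_neg, Nat.abs_cast]
    simp
  · intro n hn _
    refine ⟨Or.inl ⟨neg_sqf (Int.squarefree_natCast.2 hn.1), ?_, ?_⟩, ?_⟩
    · have := hn.2.1
      show -(n : ℤ) % 4 = 1
      omega
    · show -(n : ℤ) ≠ 1
      omega
    · refine nonzero_qtwist c4_X015 c6_X015 hn (v := 1) one_ne_zero ?_
      push_cast
      ring

theorem lower_X015' {c : ℝ} (hc : c < 5 / 16 / Real.pi ^ 2 * eta) :
    ∀ᶠ x : ℝ in atTop, c * x ≤ NC X015 x := by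
  have hlim := lim_AX 1 one_pos
  rw [Nat.cast_one, div_one] at hlim
  obtain ⟨c', h1, h2⟩ := exists_between hc
  filter_upwards [hlim.eventually (lt_mem_nhds h2), eventually_gt_atTop 0,
    eventually_ge_atTop (1 / (c' - c))] with x h3 h4 h5
  rw [lt_div_iff₀ h4] at h3
  have h6 : (Aa ((⌈x⌉₊ - 1) / 1) : ℝ) ≤ NC X015 x + 1 := by exact_mod_cast lower_X015 h4
  rw [div_le_iff₀ (by linarith)] at h5
  nlinarith

end Run7.h238.G15
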