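import Pool.Agent.Run7.h555.P15.Ap

/-!
# Minimal models of the twists of `X_0(15)`
-/

set_option autoImplicit false

open WeierstrassCurve

namespace Run7.h238.G15

open Run7.h555.P15 (WT coeffs)

/-- `M` is an integral Weierstrass equation of the elliptic curve `W` over `ℚ` -/
def IsModel (W : WeierstrassCurve ℚ) (M : WeierstrassCurve ℤ) : Prop :=
  ∃ C : VariableChange ℚ, C • W = M.map (Int.castRingHom ℚ)

/-- the equation `M` is minimal at `p`: no integral equation of the same curve has a discriminant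
with a smaller `p`-adic valuation -/
def MinAt (M : WeierstrassCurve ℤ) (p : ℕ) : Prop :=
  ∀ M' : WeierstrassCurve ℤ, IsModel (M.map (Int.castRingHom ℚ)) M' →
    padicValInt p M.Δ ≤ padicValInt p M'.Δ

theorem minAt_of_lt {M : WeierstrassCurve ℤ} {p : ℕ} (hp : p.Prime) (h0 : M.Δ ≠ 0)
    (h : padicValInt p M.Δ < 12) : MinAt M p := by
  have : Fact p.Prime := ⟨hp⟩
  rintro M' ⟨C, hC⟩
  have h1 := congrArg WeierstrassCurve.Δ hC
  rw [WeierstrassCurve.variableChange_Δ, WeierstrassCurve.map_Δ, WeierstrassCurve.map_Δ] at h1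
  have h2 : ((C.u⁻¹ : ℚˣ) : ℚ) ^ 12 * ((M.Δ : ℤ) : ℚ) = ((M'.Δ : ℤ) : ℚ) := by simpa using h1
  have hu : ((C.u⁻¹ : ℚˣ) : ℚ) ≠ 0 := Units.ne_zero _
  have hM : ((M.Δ : ℤ) : ℚ) ≠ 0 := by exact_mod_cast h0
  have h3 := congrArg (padicValRat p) h2
  rw [padicValRat.mul (pow_ne_zero _ hu) hM, padicValRat.pow, padicValRat.of_int,
    padicValRat.of_int] at h3
  omega

theorem disc_WT {D : ℤ} (hD : D % 4 = 1) : (WT D).Δ = 50625 * D ^ 6 := by
  obtain ⟨c1, c2, c3⟩ := coeffs hD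
  have h : (4 : ℤ) ^ 3 * (WT D).Δ = 4 ^ 3 * (50625 * D ^ 6) := by
    unfold WT WeierstrassCurve.Δ WeierstrassCurve.b₂ WeierstrassCurve.b₄ WeierstrassCurve.b₆
      WeierstrassCurve.b₈
    simp only
    set A := (5 * D - 1) / 4
    set B := (19 * D ^ 2 + 1) / 2
    set E := (39 * D ^ 3 + 1) / 4
    have hA : (4 * A) = 5 * D - 1 := c1
    have hB : (2 * B) = 19 * D ^ 2 + 1 := c2
    have hE : (4 * E) = 39 * D ^ 3 + 1 := c3
    have e : (4 : ℤ) ^ 3 * (-(1 ^ 2 + 4 * A) ^ 2 * (1 ^ 2 * -E + 4 * A * -E - 1 * 1 * -B + A * 1 ^ 2 -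
        (-B) ^ 2) - 8 * (2 * -B + 1 * 1) ^ 3 - 27 * (1 ^ 2 + 4 * -E) ^ 2 +
        9 * (1 ^ 2 + 4 * A) * (2 * -B + 1 * 1) * (1 ^ 2 + 4 * -E)) =
        -(1 + (4 * A)) ^ 2 * (-16 * (4 * E) - 16 * (4 * A) * (4 * E) + 32 * (2 * B) + 16 * (4 * A) -
        16 * (2 * B) ^ 2) - 512 * (1 - (2 * B)) ^ 3 - 1728 * (1 - (4 * E)) ^ 2 +
        576 * (1 + (4 * A)) * (1 - (2 * B)) * (1 - (4 * E)) := by ring
    rw [e, hA, hB, hE]
    ring
  exact mul_left_cancel₀ (by norm_num) h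

theorem min_WT {n : ℕ} (hs : Squarefree n) (h4 : n % 4 = 3) (h15 : n.Coprime 15) {p : ℕ}
    (hp : p.Prime) : MinAt (WT (-(n : ℤ))) p := by
  have : Fact p.Prime := ⟨hp⟩
  have n0 : n ≠ 0 := hs.ne_zero
  have hD : (-(n : ℤ)) % 4 = 1 := by omega
  have hd := disc_WT hD
  have e1 : (WT (-(n : ℤ))).Δ = ((15 ^ 4 * n ^ 6 : ℕ) : ℤ) := by
    rw [hd]
    push_cast
    ring
  refine minAt_of_lt hp ?_ ?_
  · rw [e1]
    have : 15 ^ 4 * n ^ 6 ≠ 0 := by positivity
    exact_mod_cast this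
  · rw [e1, padicValInt.of_nat, padicValNat.mul (by norm_num) (pow_ne_zero _ n0),
      padicValNat.pow, padicValNat.pow]
    have h15' : padicValNat p 15 ≤ 1 := by
      have h15s : Squarefree 15 := by
        rw [Nat.squarefree_iff_nodup_primeFactorsList (by norm_num)]
        decide +kernel
      have := h15s.natFactorization_le_one p
      rwa [Nat.factorization_def _ hp] at this
    have hn' : padicValNat p n ≤ 1 := by
      have := hs.natFactorization_le_one p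
      rwa [Nat.factorization_def _ hp] at this
    have hne : padicValNat p 15 = 0 ∨ padicValNat p n = 0 := by
      by_cases h : p ∣ n
      · left
        refine padicValNat.eq_zero_of_not_dvd fun h' => ?_
        exact hp.one_lt.ne' (Nat.eq_one_of_dvd_coprimes h15 h h')
      · right
        exact padicValNat.eq_zero_of_not_dvd h
    omega

/-- the twist in short form -/
def short (d : ℤ) : WeierstrassCurve ℚ := ⟨0, 0, 0, -12987 * (d : ℚ) ^ 2, -263466 * (d : ℚ) ^ 3⟩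

theorem isModel_short {D : ℤ} (hD : D % 4 = 1) : IsModel (short D) (WT D) := by
  obtain ⟨c1, c2, c3⟩ := coeffs hD
  have d1 : (4 : ℚ) * (((5 * D - 1) / 4 : ℤ) : ℚ) = 5 * D - 1 := by exact_mod_cast c1
  have d2 : (2 : ℚ) * (((19 * D ^ 2 + 1) / 2 : ℤ) : ℚ) = 19 * D ^ 2 + 1 := by exact_mod_cast c2
  have d3 : (4 : ℚ) * (((39 * D ^ 3 + 1) / 4 : ℤ) : ℚ) = 39 * D ^ 3 + 1 := by exact_mod_cast c3
  have hu : ((Units.mk0 (6 : ℚ) (by norm_num))⁻¹ : ℚˣ).1 = 1 / 6 := by
    rw [Units.val_inv_eq_inv_val]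
    norm_num
  refine ⟨⟨Units.mk0 6 (by norm_num), 15 * D, 3, 108⟩, ?_⟩
  ext
  · simp only [short, WT, variableChange_a₁, map_a₁, hu]
    norm_num
  · simp only [short, WT, variableChange_a₂, map_a₂, hu, eq_intCast]
    linear_combination (-1 / 4) * d1
  · simp only [short, WT, variableChange_a₃, map_a₃, hu]
    norm_num
  · simp only [short, WT, variableChange_a₄, map_a₄, hu, eq_intCast]
    push_cast
    linear_combination (1 / 2) * d2
  · simp only [short, WT, variableChange_a₆, map_a₆, hu, eq_intCast]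
    push_cast
    linear_combination (1 / 4) * d3

end Run7.h238.G15
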