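import Pool.Agent.N873.F15.Dn
import Pool.Agent.N916.GB.Fin
import Pool.Agent.Y293.SF.SQF

/-!
# The proportion of the class `-n`, `n = 23, 47` modulo `60`, without solvable factorization, among all
squarefree integers
-/

set_option autoImplicit false

open scoped Classical

namespace Run7.h238.G15

open Finset Filter Topology
open Pool.Agent.N969.P15 (Qc)
open Pool.Agent.N916.GB (eta eta_bounds eta_pos density_Qc)
open Pool.Agent.N873.F15.Dn (sf ep sf_dens ep_pos)

/-- the squarefree integers with `|d| < X` -/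
noncomputable def Dd (X : ℕ) : Finset ℤ := (Ioo (-(X : ℤ)) X).filter fun d => Squarefree d

/-- the squarefree positive integers up to `Y` -/
noncomputable def Tt (Y : ℕ) : ℕ := ((Icc 1 Y).filter fun n => Squarefree n).card

/-- the class -/
noncomputable def Bb (Y : ℕ) : ℕ :=
  ((Icc 1 Y).filter fun n => Squarefree n ∧ (n % 60 = 23 ∨ n % 60 = 47)).card

/-- the class without solvable factorization -/
noncomputable def Aa (Y : ℕ) : ℕ :=
  ((Icc 1 Y).filter fun n => Squarefree n ∧ (n % 60 = 23 ∨ n % 60 = 47) ∧ Qc n).card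

theorem neg_sqf {x : ℤ} (h : Squarefree x) : Squarefree (-x) := fun y hy => h y ((dvd_neg).1 hy)

theorem card_Dd (X : ℕ) : (Dd X).card = 2 * Tt (X - 1) := by
  have h1 : Dd X = ((Icc 1 (X - 1)).filter fun n => Squarefree n).image (fun n : ℕ => (n : ℤ)) ∪
      ((Icc 1 (X - 1)).filter fun n => Squarefree n).image (fun n : ℕ => -(n : ℤ)) := by
    ext d
    simp only [Dd, mem_filter, mem_Ioo, mem_union, mem_image, mem_Icc]
    constructor
    · rintro ⟨⟨h1, h2⟩, h3⟩
      have d0 : d ≠ 0 := h3.ne_zero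
      rcases lt_or_gt_of_ne d0 with h4 | h4
      · right
        refine ⟨(-d).toNat, ⟨⟨by omega, by omega⟩, ?_⟩, by omega⟩
        rw [← Int.squarefree_natCast, Int.toNat_of_nonneg (by omega)]
        exact neg_sqf h3
      · left
        refine ⟨d.toNat, ⟨⟨by omega, by omega⟩, ?_⟩, by omega⟩
        rw [← Int.squarefree_natCast, Int.toNat_of_nonneg (by omega)]
        exact h3
    · rintro (⟨n, ⟨⟨h1, h2⟩, h3⟩, rfl⟩ | ⟨n, ⟨⟨h1, h2⟩, h3⟩, rfl⟩)
      · exact ⟨⟨by omega, by omega⟩, Int.squarefree_natCast.2 h3⟩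
      · refine ⟨⟨by omega, by omega⟩, ?_⟩
        exact neg_sqf (Int.squarefree_natCast.2 h3)
  rw [h1, card_union_of_disjoint, card_image_of_injective _ Nat.cast_injective,
    card_image_of_injective, two_mul]
  · rfl
  · intro a b h
    simpa using h
  · rw [Finset.disjoint_left]
    intro d hd hd'
    simp only [mem_image, mem_filter, mem_Icc] at hd hd'
    obtain ⟨a, ⟨⟨a1, _⟩, _⟩, rfl⟩ := hd
    obtain ⟨b, ⟨⟨b1, _⟩, _⟩, hb⟩ := hd'
    omega

theorem Bb_eq (Y : ℕ) : Bb Y = sf 60 23 Y + sf 60 47 Y := by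
  unfold Bb sf
  rw [← card_union_of_disjoint]
  · congr 1
    ext n
    simp only [mem_filter, mem_union, mem_Icc]
    tauto
  · rw [Finset.disjoint_left]
    intro n h1 h2
    simp only [mem_filter] at h1 h2
    omega

theorem ep60 : ep 60 = 16 / 25 := by
  unfold ep
  have : (60 : ℕ).primeFactors = {2, 3, 5} := by
    have e : (60 : ℕ) = 2 ^ 2 * (3 * 5) := by norm_num
    rw [e, Nat.primeFactors_mul (by norm_num) (by norm_num), Nat.primeFactors_mul (by norm_num)
      (by norm_num), Nat.primeFactors_prime_pow (by norm_num) Nat.prime_two,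
      Nat.Prime.primeFactors Nat.prime_three, Nat.Prime.primeFactors Nat.prime_five]
    rfl
  rw [this, prod_insert (by decide), prod_insert (by decide), prod_singleton]
  norm_num

theorem lim_Bb : Tendsto (fun Y : ℕ => (Bb Y : ℝ) / Y) atTop (𝓝 (6 / Real.pi ^ 2 * (5 / 96))) := by
  have h1 := sf_dens (N := 60) (r := 23) (by norm_num) (by norm_num) (by norm_num)
  have h2 := sf_dens (N := 60) (r := 47) (by norm_num) (by norm_num) (by norm_num)
  have h3 := h1.add h2
  have e : (6 / Real.pi ^ 2 / ep 60 / (60 : ℕ) + 6 / Real.pi ^ 2 / ep 60 / (60 : ℕ) : ℝ) =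
      6 / Real.pi ^ 2 * (5 / 96) := by
    rw [ep60]
    push_cast
    ring
  rw [e] at h3
  refine h3.congr fun Y => ?_
  rw [Bb_eq]
  push_cast
  ring

theorem lim_Tt : Tendsto (fun Y : ℕ => (Tt Y : ℝ) / Y) atTop (𝓝 (6 / Real.pi ^ 2)) := by
  have h := Pool.Agent.Y293.SF.t_SQF
  unfold Pool.Agent.Y859.SF.S_SQF at h
  exact h

theorem lim_AT : Tendsto (fun Y : ℕ => (Aa Y : ℝ) / (2 * Tt Y)) atTop (𝓝 (5 / 192 * eta)) := by
  have h1 : Tendsto (fun Y : ℕ => (Aa Y : ℝ) / (Bb Y : ℝ)) atTop (𝓝 eta) := density_Qc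
  have hc : (6 / Real.pi ^ 2 : ℝ) ≠ 0 := by positivity
  have h2 := (h1.mul lim_Bb).mul ((lim_Tt.inv₀ hc).mul_const (1 / 2))
  have e : eta * (6 / Real.pi ^ 2 * (5 / 96)) * ((6 / Real.pi ^ 2)⁻¹ * (1 / 2)) = 5 / 192 * eta := by
    have e1 : eta * (6 / Real.pi ^ 2 * (5 / 96)) * ((6 / Real.pi ^ 2)⁻¹ * (1 / 2)) =
      (6 / Real.pi ^ 2) * (6 / Real.pi ^ 2)⁻¹ * (5 / 192 * eta) := by ring
    rw [e1, mul_inv_cancel₀ hc, one_mul]
  rw [e] at h2
  refine h2.congr' ?_
  have hpos := lim_Bb.eventually (lt_mem_nhds (show (0 : ℝ) < 6 / Real.pi ^ 2 * (5 / 96) by positivity))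
  have hpos2 := lim_Tt.eventually (lt_mem_nhds (show (0 : ℝ) < 6 / Real.pi ^ 2 by positivity))
  filter_upwards [hpos, hpos2, eventually_gt_atTop 0] with Y hY hY2 hY3
  have y0 : (Y : ℝ) ≠ 0 := by exact_mod_cast hY3.ne'
  have b0 : (Bb Y : ℝ) ≠ 0 := by
    intro h
    rw [h] at hY
    simp at hY
  have t0 : (Tt Y : ℝ) ≠ 0 := by
    intro h
    rw [h] at hY2
    simp at hY2
  field_simp

/-- a property of the twists by `-n` for `n` in the class without solvable factorization holds for a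
proportion at least `(5/192) η` of all squarefree integers -/
theorem lower_prop (P : ℤ → Prop)
    (hP : ∀ n : ℕ, Squarefree n → (n % 60 = 23 ∨ n % 60 = 47) → Qc n → P (-n)) (ε : ℝ) (hε : 0 < ε) :
    ∀ᶠ X : ℕ in atTop, (5 / 192 * eta - ε) * (Dd X).card ≤ (((Dd X).filter fun d => P d).card : ℝ) := by
  have h1 : Tendsto (fun X : ℕ => (Aa (X - 1) : ℝ) / (2 * Tt (X - 1))) atTop (𝓝 (5 / 192 * eta)) :=
    lim_AT.comp (tendsto_sub_atTop_nat 1)
  filter_upwards [h1.eventually (lt_mem_nhds (show 5 / 192 * eta - ε < 5 / 192 * eta by linarith)),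
    eventually_gt_atTop 1] with X hX hX1
  have t0 : 0 < Tt (X - 1) := by
    refine Finset.card_pos.2 ⟨1, ?_⟩
    rw [mem_filter, mem_Icc]
    exact ⟨⟨le_refl _, by omega⟩, squarefree_one⟩
  have t1 : (0 : ℝ) < 2 * Tt (X - 1) := by positivity
  rw [lt_div_iff₀ t1] at hX
  have h2 : Aa (X - 1) ≤ ((Dd X).filter fun d => P d).card := by
    unfold Aa
    refine Finset.card_le_card_of_injOn (fun n : ℕ => -(n : ℤ)) ?_ ?_
    · intro n hn
      rw [Finset.mem_coe, mem_filter, mem_Icc] at hn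
      obtain ⟨⟨n1, n2⟩, n3, n4, n5⟩ := hn
      rw [Finset.mem_coe, mem_filter]
      refine ⟨?_, hP n n3 n4 n5⟩
      rw [Dd, mem_filter, mem_Ioo]
      dsimp only
      exact ⟨⟨by omega, by omega⟩, neg_sqf (Int.squarefree_natCast.2 n3)⟩
    · intro a _ b _ h
      simpa using h
  rw [card_Dd]
  push_cast
  refine hX.le.trans ?_
  exact_mod_cast h2

end Run7.h238.G15
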