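import Pool.Agent.Run7.h238.G15.Lev
import Pool.Agent.Run7.h89.P21.Cen
import Pool.Agent.Run7.h209.P21.M

/-!
# `L`-functions of the twists of the curves with the `j`-invariant of `X_0(21)`
-/

set_option autoImplicit false

open WeierstrassCurve

namespace Run7.h238.G21

open Run7.h238.G15 (IsModel MinAt IsLFunction AnRank tws anRank_zero isLF isModel_scale ex_tj
  min_all dvd_all)
open Run7.h89.P21 (WT CI coeffs)
open Pool.Agent.N969.P15 (Qc)

theorem disc_WT {D : ℤ} (hD : D % 4 = 1) : (WT D).Δ = 3969 * D ^ 6 := by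
  have c1 := coeffs hD
  unfold WT WeierstrassCurve.Δ WeierstrassCurve.b₂ WeierstrassCurve.b₄ WeierstrassCurve.b₆
    WeierstrassCurve.b₈
  simp only
  set A := (D - 1) / 4
  have hA : D = 4 * A + 1 := by linarith
  rw [hA]
  ring

theorem isModel_short {D : ℤ} (hD : D % 4 = 1) :
    IsModel ⟨0, 0, 0, -5211 * (D : ℚ) ^ 2, -31050 * (D : ℚ) ^ 3⟩ (WT D) := by
  have c1 := coeffs hD
  have d1 : (4 : ℚ) * (((D - 1) / 4 : ℤ) : ℚ) = D - 1 := by exact_mod_cast c1
  have hu : ((Units.mk0 (6 : ℚ) (by norm_num))⁻¹ : ℚˣ).1 = 1 / 6 := by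
    rw [Units.val_inv_eq_inv_val]
    norm_num
  refine ⟨⟨Units.mk0 6 (by norm_num), 3 * D, 3, 0⟩, ?_⟩
  ext
  · simp only [WT, variableChange_a₁, map_a₁, hu]
    norm_num
  · simp only [WT, variableChange_a₂, map_a₂, hu, eq_intCast]
    linear_combination (-1 / 4) * d1
  · simp only [WT, variableChange_a₃, map_a₃, hu]
    norm_num
  · simp only [WT, variableChange_a₄, map_a₄, hu, eq_intCast]
    push_cast
    ring
  · simp only [WT, variableChange_a₆, map_a₆, hu, eq_intCast]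
    push_cast
    ring

/-- **central values** -/
theorem exists_L_ne {n : ℕ} (hs : Squarefree n) (hc : n % 84 = 19 ∨ n % 84 = 31 ∨ n % 84 = 55)
    (hq : Qc n) {W : WeierstrassCurve ℚ} (hW : IsModel W (WT (-(n : ℤ)))) :
    ∃ L : ℂ → ℂ, IsLFunction W L ∧ L 1 ≠ 0 := by
  obtain ⟨L, Op, Om, _, hOm, g2, g3, hL⟩ := Run7.h209.P21.m_lat
  obtain ⟨F, hF, hprod, w, hy, hodd, hval⟩ :=
    Run7.h89.P21.center hOm g2 g3 hL (n := n) ⟨hs, hc⟩
  have hw0 : w ≠ 0 := by
    rintro rfl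
    have := hodd.2 hq
    exact absurd this (by decide)
  have hF1 : F 1 ≠ 0 := by
    intro h0
    rw [h0, mul_zero, zero_mul] at hval
    have h1 : (Om * (2 ^ n.primeFactors.card * w) ^ 2 : ℝ) = 0 := by
      exact_mod_cast hval.symm
    have hw1 : ((w : ℤ) : ℝ) ≠ 0 := by exact_mod_cast hw0
    exact (mul_ne_zero hOm.ne' (pow_ne_zero 2
      (mul_ne_zero (pow_ne_zero _ (by norm_num)) hw1))) h1
  have h4 : (-(n : ℤ)) % 4 = 1 := by omega
  have hd : (WT (-(n : ℤ))).Δ = ((3969 * n ^ 6 : ℕ) : ℤ) := by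
    rw [disc_WT h4]
    push_cast
    ring
  have h21 : n.Coprime 21 := by
    have h2 : Nat.Coprime n 3 := by
      rw [Nat.coprime_comm, Nat.Prime.coprime_iff_not_dvd Nat.prime_three]
      omega
    have h3 : Nat.Coprime n 7 := by
      rw [Nat.coprime_comm, Nat.Prime.coprime_iff_not_dvd (by norm_num)]
      omega
    exact Nat.Coprime.mul_right h2 h3
  have hco : n.Coprime 3969 := by
    have : n.Coprime (21 ^ 4) := Nat.Coprime.pow_right 4 h21
    exact Nat.Coprime.coprime_dvd_right (by norm_num) this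
  refine ⟨F, isLF (m := 21 * n) (min_all hd (by norm_num) hs hco ?_)
    (fun p hp => dvd_all (N := 21) (k := 4) hd (by norm_num) (by norm_num) hp) hW hF
      (fun s hs => hprod s hs), hF1⟩
  intro p hp
  have : Fact p.Prime := ⟨hp⟩
  by_contra h
  have h1 : p ^ 12 ∣ 3969 := (pow_dvd_pow p (not_lt.1 h)).trans pow_padicValNat_dvd
  have h2 : p ^ 12 ≤ 3969 := Nat.le_of_dvd (by norm_num) h1
  have h3 : 2 ^ 12 ≤ p ^ 12 := Nat.pow_le_pow_left hp.two_le 12
  omega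

theorem rank_tws {a b t : ℚ} (ha : a = -5211 * t ^ 2) (hb : b = -31050 * t ^ 3) {n : ℕ}
    (hn : Squarefree n ∧ (n % 84 = 19 ∨ n % 84 = 31 ∨ n % 84 = 55) ∧ Qc n) {d : ℤ} {v : ℚ}
    (hv : v ≠ 0) (hA : t * d = -n * v ^ 2) : AnRank (tws a b d) 0 := by
  refine anRank_zero (exists_L_ne hn.1 hn.2.1 hn.2.2 ?_)
  have h0 := isModel_short (D := -(n : ℤ)) (by have := hn.2.1; omega)
  have h1 := isModel_scale (A := t * d) hv (by push_cast; exact hA) h0
  have e : tws a b d = ⟨0, 0, 0, -5211 * (t * d) ^ 2, -31050 * (t * d) ^ 3⟩ := by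
    unfold tws
    rw [ha, hb]
    congr 1 <;> ring
  rw [e]
  exact h1

theorem exists_tj {a b : ℚ} (h0 : 4 * a ^ 3 + 27 * b ^ 2 ≠ 0)
    (hj : 1728 * (4 * a ^ 3) / (4 * a ^ 3 + 27 * b ^ 2) = 193 ^ 3 / 63 ^ 2) :
    ∃ t : ℚ, t ≠ 0 ∧ a = -5211 * t ^ 2 ∧ b = -31050 * t ^ 3 :=
  ex_tj (by norm_num) (by norm_num) (by norm_num) (by norm_num) (by norm_num) h0 hj

end Run7.h238.G21
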