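import Pool.Agent.Run7.h238.G15.Lev
import Pool.Agent.Run7.h555.P24.Lx
import Pool.Agent.Run7.h209.P24.M

/-!
# `L`-functions of the twists of the curves with the `j`-invariant of `X_0(24)`
-/

set_option autoImplicit false

open WeierstrassCurve

namespace Run7.h238.G24

open Run7.h238.G15 (IsModel MinAt IsLFunction AnRank tws anRank_zero isLF isModel_scale ex_tj
  min_all dvd_all)
open Run7.h89.P24 (WT CI)
open Pool.Agent.N969.P15 (Qc)

theorem disc_WT (n : ℕ) : (WT (-(n : ℤ))).Δ = ((2304 * n ^ 6 : ℕ) : ℤ) := by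
  unfold WT WeierstrassCurve.Δ WeierstrassCurve.b₂ WeierstrassCurve.b₄ WeierstrassCurve.b₆
    WeierstrassCurve.b₈
  push_cast
  ring

theorem isModel_short (D : ℤ) :
    IsModel ⟨0, 0, 0, -351 * (D : ℚ) ^ 2, 1890 * (D : ℚ) ^ 3⟩ (WT D) := by
  have hu : ((Units.mk0 (3 : ℚ) (by norm_num))⁻¹ : ℚˣ).1 = 1 / 3 := by
    rw [Units.val_inv_eq_inv_val]
    norm_num
  refine ⟨⟨Units.mk0 3 (by norm_num), -3 * D, 0, 0⟩, ?_⟩
  ext
  · simp only [WT, variableChange_a₁, map_a₁, hu]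
    norm_num
  · simp only [WT, variableChange_a₂, map_a₂, hu, eq_intCast]
    push_cast
    ring
  · simp only [WT, variableChange_a₃, map_a₃, hu]
    norm_num
  · simp only [WT, variableChange_a₄, map_a₄, hu, eq_intCast]
    push_cast
    ring
  · simp only [WT, variableChange_a₆, map_a₆, hu, eq_intCast]
    push_cast
    ring

/-- **central values** -/
theorem exists_L_ne {n : ℕ} (hs : Squarefree n) (hc : n % 24 = 11) (hq : Qc n)
    {W : WeierstrassCurve ℚ} (hW : IsModel W (WT (-(n : ℤ)))) :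
    ∃ L : ℂ → ℂ, IsLFunction W L ∧ L 1 ≠ 0 := by
  obtain ⟨L, Op, Om, _, hOm, g2, g3, hL⟩ := Run7.h209.P24.m_lat
  obtain ⟨F, hF, hprod, w, hodd, hval⟩ :=
    Run7.h555.P24.center_ex hOm g2 g3 hL (n := n) ⟨hs, hc⟩
  have hw0 : w ≠ 0 := by
    rintro rfl
    have := hodd.2 hq
    exact absurd this (by decide)
  have hF1 : F 1 ≠ 0 := by
    intro h0
    rw [h0, mul_zero, zero_mul] at hval
    have h1 : (Om * (2 ^ n.primeFactors.card * w) ^ 2 : ℝ) = 0 := by
      exact_mod_cast hval.symm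
    have hw1 : ((w : ℤ) : ℝ) ≠ 0 := by exact_mod_cast hw0
    exact (mul_ne_zero hOm.ne' (pow_ne_zero 2
      (mul_ne_zero (pow_ne_zero _ (by norm_num)) hw1))) h1
  have h6 : n.Coprime 6 := by
    have h2 : Nat.Coprime n 2 := by
      rw [Nat.coprime_comm, Nat.Prime.coprime_iff_not_dvd Nat.prime_two]
      omega
    have h3 : Nat.Coprime n 3 := by
      rw [Nat.coprime_comm, Nat.Prime.coprime_iff_not_dvd Nat.prime_three]
      omega
    exact Nat.Coprime.mul_right h2 h3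
  have hco : n.Coprime 2304 := by
    have : n.Coprime (6 ^ 8) := Nat.Coprime.pow_right 8 h6
    exact Nat.Coprime.coprime_dvd_right (by norm_num) this
  refine ⟨F, isLF (m := 24 * n) (min_all (disc_WT n) (by norm_num) hs hco ?_)
    (fun p hp => dvd_all (N := 24) (k := 8) (disc_WT n) (by norm_num) (by norm_num) hp) hW hF hprod,
    hF1⟩
  intro p hp
  have : Fact p.Prime := ⟨hp⟩
  by_contra h
  have h1 : p ^ 12 ∣ 2304 := (pow_dvd_pow p (not_lt.1 h)).trans pow_padicValNat_dvd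
  have h2 : p ^ 12 ≤ 2304 := Nat.le_of_dvd (by norm_num) h1
  have h3 : 2 ^ 12 ≤ p ^ 12 := Nat.pow_le_pow_left hp.two_le 12
  omega

theorem rank_tws {a b t : ℚ} (ha : a = -351 * t ^ 2) (hb : b = 1890 * t ^ 3) {n : ℕ}
    (hn : Squarefree n ∧ n % 24 = 11 ∧ Qc n) {d : ℤ} {v : ℚ} (hv : v ≠ 0)
    (hA : t * d = -n * v ^ 2) : AnRank (tws a b d) 0 := by
  refine anRank_zero (exists_L_ne hn.1 hn.2.1 hn.2.2 ?_)
  have h0 := isModel_short (-(n : ℤ))
  have h1 := isModel_scale (A := t * d) hv (by push_cast; exact hA) h0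
  have e : tws a b d = ⟨0, 0, 0, -351 * (t * d) ^ 2, 1890 * (t * d) ^ 3⟩ := by
    unfold tws
    rw [ha, hb]
    congr 1 <;> ring
  rw [e]
  exact h1

theorem exists_tj {a b : ℚ} (h0 : 4 * a ^ 3 + 27 * b ^ 2 ≠ 0)
    (hj : 1728 * (4 * a ^ 3) / (4 * a ^ 3 + 27 * b ^ 2) = 35152 / 9) :
    ∃ t : ℚ, t ≠ 0 ∧ a = -351 * t ^ 2 ∧ b = 1890 * t ^ 3 :=
  ex_tj (by norm_num) (by norm_num) (by norm_num) (by norm_num) (by norm_num) h0 hj

end Run7.h238.G24
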