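import Pool.Agent.Run7.h238.G15.NC

/-!
# Goldfeld's counting function for the curves with the `j`-invariant of `X_0(15)`
-/

set_option autoImplicit false

open WeierstrassCurve Filter Topology

namespace Run7.h238.G15

open Pool.Agent.N916.GB (eta eta_bounds eta_pos density_Qc)
open Run7.h555.P15 (WT)

/-- the analytic rank of `W` is `r` -/
def AnRank (W : WeierstrassCurve ℚ) (r : ℕ) : Prop :=
  ∃ L : ℂ → ℂ, IsLFunction W L ∧ analyticOrderAt L 1 = r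

theorem anRank_zero {W : WeierstrassCurve ℚ} (h : ∃ L : ℂ → ℂ, IsLFunction W L ∧ L 1 ≠ 0) :
    AnRank W 0 := by
  obtain ⟨L, hL, h1⟩ := h
  refine ⟨L, hL, ?_⟩
  have ha : AnalyticAt ℂ L 1 := hL.1.analyticAt 1
  rw [Nat.cast_zero]
  exact ha.analyticOrderAt_eq_zero.2 h1

/-- the twist by `d` of `y² = x³ + a x + b` -/
def tws (a b : ℚ) (d : ℤ) : WeierstrassCurve ℚ := ⟨0, 0, 0, a * d ^ 2, b * d ^ 3⟩

/-- Goldfeld's counting function -/
noncomputable def Nr (a b : ℚ) (r : ℕ) (X : ℝ) : ℕ := {d ∈ DX X | AnRank (tws a b d) r}.ncard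

theorem Nr_eq (a b : ℚ) (r : ℕ) (X : ℝ) :
    Nr a b r X = {d : ℤ | |(d : ℝ)| < X ∧ Squarefree d ∧ AnRank (tws a b d) r}.ncard := by
  unfold Nr DX
  congr 1
  ext d
  constructor
  · rintro ⟨⟨h1, h2⟩, h3⟩
    exact ⟨h2, h1, h3⟩
  · rintro ⟨h1, h2, h3⟩
    exact ⟨⟨h2, h1⟩, h3⟩

theorem rank_tws {a b t : ℚ} (ha : a = -12987 * t ^ 2) (hb : b = -263466 * t ^ 3) {n : ℕ} (hn : Cq n)
    {d : ℤ} {v : ℚ} (hv : v ≠ 0) (hA : t * d = -n * v ^ 2) : AnRank (tws a b d) 0 := by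
  refine anRank_zero (exists_L_ne hn.1 hn.2.1 hn.2.2 ?_)
  have h := isModel_sq (n := n) (by have := hn.2.1; omega) hv hA
  have e : tws a b d = ⟨0, 0, 0, -12987 * (t * d) ^ 2, -263466 * (t * d) ^ 3⟩ := by
    unfold tws
    rw [ha, hb]
    congr 1 <;> ring
  rw [e]
  exact h

theorem lower_Nr {a b t : ℚ} (ha : a = -12987 * t ^ 2) (hb : b = -263466 * t ^ 3) {D : ℤ}
    (hD : Squarefree D) {u : ℚ} (hu : u ≠ 0) (ht : t = D * u ^ 2) {x : ℝ} (hx : 0 < x) :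
    Aa ((⌈x⌉₊ - 1) / D.natAbs) ≤ Nr a b 0 x + 1 := by
  have hD0 : 0 < D.natAbs := Int.natAbs_pos.2 hD.ne_zero
  rw [Nr_eq]
  refine lower_gen D.natAbs hD0 D.natAbs
    (fun d => Squarefree d ∧ AnRank (tws a b d) 0) (ee D) ?_ ?_ ?_ x hx
  · intro a b ha hb h
    exact ee_inj hD ha.1 hb.1 h
  · intro n hn _
    have := ee_le (D := D) (n := n)
    have e : ((D.natAbs : ℕ) : ℤ) = |D| := Int.natCast_natAbs D
    rw [e]
    exact this
  · intro n hn hm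
    refine ⟨sqf_ee hD hn.1, ?_⟩
    have hg := ee_mul (D := D) (n := n)
    have hDg : ((D / (Nat.gcd n D.natAbs : ℤ) : ℤ) : ℚ) ≠ 0 := by
      exact_mod_cast D_ne (n := n) hD
    refine rank_tws ha hb hn (v := ((D / (Nat.gcd n D.natAbs : ℤ) : ℤ) : ℚ) * u) ?_ ?_
    · exact mul_ne_zero hDg hu
    · have hg' : ((ee D n : ℤ) : ℚ) * D = -(n : ℚ) * ((D / (Nat.gcd n D.natAbs : ℤ) : ℤ) : ℚ) ^ 2 := by
        exact_mod_cast hg
      rw [ht]
      linear_combination (u ^ 2) * hg'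

/-- **the lower bound for the twist by `D`** -/
theorem lower_Nr' {a b t : ℚ} (ha : a = -12987 * t ^ 2) (hb : b = -263466 * t ^ 3) {D : ℤ}
    (hD : Squarefree D) {u : ℚ} (hu : u ≠ 0) (ht : t = D * u ^ 2) {c : ℝ}
    (hc : c < 5 / 192 * eta / |(D : ℝ)|) :
    ∀ᶠ X : ℝ in atTop, c * (DX X).ncard ≤ Nr a b 0 X := by
  have hD0 : 0 < D.natAbs := Int.natAbs_pos.2 hD.ne_zero
  have hDr : |(D : ℝ)| = (D.natAbs : ℝ) := by
    rw [Nat.cast_natAbs, Int.cast_abs]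
  have hDpos : (0 : ℝ) < D.natAbs := by exact_mod_cast hD0
  have hlim := lim_AX D.natAbs hD0
  have hlim2 := lim_DX
  have hpi : (0 : ℝ) < 12 / Real.pi ^ 2 := by positivity
  -- the quotient
  have h1 : Tendsto (fun X : ℝ => ((Aa ((⌈X⌉₊ - 1) / D.natAbs) : ℝ) - 1) / (DX X).ncard) atTop
      (𝓝 (5 / 192 * eta / |(D : ℝ)|)) := by
    have h2 : Tendsto (fun X : ℝ => (1 : ℝ) / X) atTop (𝓝 0) :=
      (tendsto_const_nhds (x := (1 : ℝ))).div_atTop (tendsto_id (α := ℝ) (x := atTop))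
    have h3 := (hlim.sub h2).div hlim2 hpi.ne'
    have e : (5 / 16 / Real.pi ^ 2 * eta / (D.natAbs : ℝ) - 0) / (12 / Real.pi ^ 2) =
        5 / 192 * eta / |(D : ℝ)| := by
      rw [hDr]
      have := Real.pi_pos
      field_simp
      ring
    rw [e] at h3
    refine h3.congr' ?_
    filter_upwards [eventually_gt_atTop 0] with X hX
    show ((Aa ((⌈X⌉₊ - 1) / D.natAbs) : ℝ) / X - 1 / X) / (((DX X).ncard : ℝ) / X) = _
    rw [← sub_div, div_div_div_cancel_right₀ hX.ne']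
  filter_upwards [h1.eventually (lt_mem_nhds hc), eventually_gt_atTop 0,
    hlim2.eventually (lt_mem_nhds hpi)] with X h4 h5 h6
  have h7 : (0 : ℝ) < (DX X).ncard := by
    by_contra h8
    have h9 : ((DX X).ncard : ℝ) = 0 := le_antisymm (not_lt.1 h8) (Nat.cast_nonneg _)
    rw [h9, zero_div] at h6
    exact lt_irrefl _ h6
  rw [lt_div_iff₀ h7] at h4
  have h8 : (Aa ((⌈X⌉₊ - 1) / D.natAbs) : ℝ) ≤ Nr a b 0 X + 1 := by
    exact_mod_cast lower_Nr ha hb hD hu ht h5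
  linarith

theorem exists_tj {a b : ℚ} (h0 : 4 * a ^ 3 + 27 * b ^ 2 ≠ 0)
    (hj : 1728 * (4 * a ^ 3) / (4 * a ^ 3 + 27 * b ^ 2) = 481 ^ 3 / 15 ^ 4) :
    ∃ t : ℚ, t ≠ 0 ∧ a = -12987 * t ^ 2 ∧ b = -263466 * t ^ 3 := by
  rw [div_eq_iff h0] at hj
  obtain ⟨t, ht, h1, h2⟩ := exists_t (x := -a / 27) (y := -b / 54)
    (D := -16 * (4 * a ^ 3 + 27 * b ^ 2) / 6 ^ 12) (by
      refine div_ne_zero (mul_ne_zero (by norm_num) h0) (by norm_num)) (by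
      linear_combination (-16 / 6 ^ 12 : ℚ) * hj) (by ring)
  refine ⟨t, ht, ?_, ?_⟩
  · linear_combination (-27 : ℚ) * h1
  · linear_combination (-54 : ℚ) * h2

theorem lower_j {a b : ℚ} (h0 : 4 * a ^ 3 + 27 * b ^ 2 ≠ 0)
    (hj : 1728 * (4 * a ^ 3) / (4 * a ^ 3 + 27 * b ^ 2) = 481 ^ 3 / 15 ^ 4) :
    ∃ c : ℝ, 0 < c ∧ ∀ᶠ X : ℝ in atTop, c * (DX X).ncard ≤ Nr a b 0 X := by
  obtain ⟨t, ht, ha, hb⟩ := exists_tj h0 hj
  obtain ⟨D, hD, u, hu, htD⟩ := exists_sqf ht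
  have hDr : (0 : ℝ) < |(D : ℝ)| := by
    rw [abs_pos]
    exact_mod_cast hD.ne_zero
  have hp : 0 < 5 / 192 * eta / |(D : ℝ)| := by
    have := eta_pos
    positivity
  obtain ⟨c, h1, h2⟩ := exists_between hp
  exact ⟨c, h1, lower_Nr' ha hb hD hu htD h2⟩

end Run7.h238.G15
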