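import Pool.Agent.Run7.h238.G15.Curve

/-!
# `L`-functions of elliptic curves over `ℚ`
-/

set_option autoImplicit false

open WeierstrassCurve

namespace Run7.h238.G15

/-- the number of solutions modulo `p` of the equation `M` -/
noncomputable def pts (M : WeierstrassCurve ℤ) (p : ℕ) : ℕ :=
  Nat.card {z : ZMod p × ZMod p // z.2 ^ 2 + M.a₁ * z.1 * z.2 + M.a₃ * z.2 =
    z.1 ^ 3 + M.a₂ * z.1 ^ 2 + M.a₄ * z.1 + M.a₆}

/-- the Euler factor at `p` of the equation `M` (minimal at `p`) -/
noncomputable def euler (M : WeierstrassCurve ℤ) (p : ℕ) (s : ℂ) : ℂ :=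
  (1 - ((p : ℂ) - pts M p) * (p : ℂ) ^ (-s) +
    if (p : ℤ) ∣ M.Δ then 0 else (p : ℂ) ^ (1 - 2 * s))⁻¹

/-- `L` is the `L`-function of `W`: it is entire and, for `Re s > 3/2`, the product of the Euler
factors, the one at `p` being computed with an integral equation of `W` which is minimal at `p` -/
def IsLFunction (W : WeierstrassCurve ℚ) (L : ℂ → ℂ) : Prop :=
  Differentiable ℂ L ∧ ∃ M : Nat.Primes → WeierstrassCurve ℤ,
    (∀ p : Nat.Primes, IsModel W (M p) ∧ MinAt (M p) p) ∧
    ∀ s : ℂ, 3 / 2 < s.re → HasProd (fun p : Nat.Primes => euler (M p) p s) (L s)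

/-- models of isomorphic curves -/
theorem IsModel.smul {W : WeierstrassCurve ℚ} {M : WeierstrassCurve ℤ} (h : IsModel W M)
    (C : VariableChange ℚ) : IsModel (C • W) M := by
  obtain ⟨C', hC⟩ := h
  refine ⟨C' * C⁻¹, ?_⟩
  rw [← hC, ← mul_smul, inv_mul_cancel_right]

theorem IsModel.of_smul {W : WeierstrassCurve ℚ} {M : WeierstrassCurve ℤ}
    (C : VariableChange ℚ) (h : IsModel (C • W) M) : IsModel W M := by
  have := h.smul C⁻¹
  rwa [inv_smul_smul] at this

/-- the short form of the twist by `-n` and its multiples by squares -/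
theorem isModel_sq {n : ℕ} (h4 : n % 4 = 3) {A v : ℚ} (hv : v ≠ 0) (hA : A = -n * v ^ 2) :
    IsModel ⟨0, 0, 0, -12987 * A ^ 2, -263466 * A ^ 3⟩ (Run7.h555.P15.WT (-(n : ℤ))) := by
  have h := isModel_short (D := -(n : ℤ)) (by omega)
  refine IsModel.of_smul ⟨Units.mk0 v hv, 0, 0, 0⟩ ?_
  have e : (⟨Units.mk0 v hv, 0, 0, 0⟩ : VariableChange ℚ) •
      (⟨0, 0, 0, -12987 * A ^ 2, -263466 * A ^ 3⟩ : WeierstrassCurve ℚ) = short (-(n : ℤ)) := by
    have hu : ((Units.mk0 v hv)⁻¹ : ℚˣ).1 = v⁻¹ := by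
      rw [Units.val_inv_eq_inv_val]
      rfl
    ext
    · simp [short, variableChange_a₁]
    · simp [short, variableChange_a₂]
    · simp [short, variableChange_a₃]
    · simp only [short, variableChange_a₄, hu, hA]
      push_cast
      field_simp
      ring
    · simp only [short, variableChange_a₆, hu, hA]
      push_cast
      field_simp
      ring
  rw [e]
  exact h

end Run7.h238.G15
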