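import Pool.Agent.Run7.h238.G15.LDef
import Pool.Agent.Run7.h238.G15.Dens
import Pool.Agent.Run7.h555.P15.Ltw
import Pool.Agent.Run7.h741.MF.Sign

/-!
# Nonvanishing central values of the twists of the curves with the `j`-invariant of `X_0(15)`
-/

set_option autoImplicit false

open WeierstrassCurve Filter Topology

namespace Run7.h238.G15

open Pool.Agent.W97.MT (affCount ap)
open Pool.Agent.N969.P15 (Cls0 Qc cc)
open Run7.h555.P15 (WT CI eul exists_Ltw)

theorem pts_eq (M : WeierstrassCurve ℤ) (p : ℕ) : pts M p = affCount M p := by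
  unfold pts affCount
  refine Nat.card_congr (Equiv.subtypeEquivRight fun z => ?_)
  rw [WeierstrassCurve.Affine.equation_iff]
  simp only [WeierstrassCurve.map, eq_intCast]

theorem dvd_disc {n : ℕ} (h4 : n % 4 = 3) {p : ℕ} (hp : p.Prime) :
    (p : ℤ) ∣ (WT (-(n : ℤ))).Δ ↔ p ∣ 15 * n := by
  have hD : (-(n : ℤ)) % 4 = 1 := by omega
  have e1 : (WT (-(n : ℤ))).Δ = ((15 ^ 4 * n ^ 6 : ℕ) : ℤ) := by
    rw [disc_WT hD]
    push_cast
    ring
  rw [e1, Int.natCast_dvd_natCast]
  constructor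
  · intro h
    rcases hp.dvd_mul.1 h with h | h
    · exact Dvd.dvd.mul_right (hp.dvd_of_dvd_pow h) n
    · exact Dvd.dvd.mul_left (hp.dvd_of_dvd_pow h) 15
  · intro h
    rcases hp.dvd_mul.1 h with h | h
    · exact Dvd.dvd.mul_right (dvd_pow h (by norm_num)) _
    · exact Dvd.dvd.mul_left (dvd_pow h (by norm_num)) _

theorem euler_eq {n : ℕ} (h4 : n % 4 = 3) {p : ℕ} (hp : p.Prime) (s : ℂ) :
    euler (WT (-(n : ℤ))) p s = eul n s p := by
  unfold euler eul
  rw [pts_eq]
  have e1 : ((ap (CI n) p : ℤ) : ℂ) = (p : ℂ) - affCount (WT (-(n : ℤ))) p := by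
    unfold ap
    push_cast
    rfl
  rw [e1]
  by_cases h : (p : ℤ) ∣ (WT (-(n : ℤ))).Δ
  · rw [if_pos h, if_pos ((dvd_disc h4 hp).1 h)]
  · rw [if_neg h, if_neg (fun h' => h ((dvd_disc h4 hp).2 h'))]

/-- the `L`-function of the twist by `-n` in all its equations -/
theorem isLFunction_of {n : ℕ} (hs : Squarefree n) (h4 : n % 4 = 3) (h15 : n.Coprime 15)
    {W : WeierstrassCurve ℚ} (hW : IsModel W (WT (-(n : ℤ)))) {F : ℂ → ℂ} (hF : Differentiable ℂ F)
    (hp : ∀ s : ℂ, 3 / 2 < s.re →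
        HasProd (fun p : ℕ => if p.Prime then eul n s p else 1) (F s)) : IsLFunction W F := by
  refine ⟨hF, fun _ => WT (-(n : ℤ)), fun p => ⟨hW, min_WT hs h4 h15 p.2⟩, fun s hs' => ?_⟩
  have h := hp s hs'
  have hinj : Function.Injective (fun p : Nat.Primes => (p : ℕ)) := fun a b h => Subtype.ext h
  rw [← Function.Injective.hasProd_iff hinj] at h
  · refine h.congr_fun ?_
    intro p
    show euler _ _ _ = if (p : ℕ).Prime then eul n s p else 1
    rw [if_pos p.2]
    exact euler_eq h4 p.2 s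
  · intro p hp'
    rw [if_neg]
    intro h'
    exact hp' ⟨⟨p, h'⟩, rfl⟩

/-- **central values**: for `n = 23, 47` modulo `60` without solvable factorization the `L`-function
of every equation of the twist by `-n` of `X_0(15)` does not vanish at the centre -/
theorem exists_L_ne {n : ℕ} (hs : Squarefree n) (hc : n % 60 = 23 ∨ n % 60 = 47) (hq : Qc n)
    {W : WeierstrassCurve ℚ} (hW : IsModel W (WT (-(n : ℤ)))) :
    ∃ L : ℂ → ℂ, IsLFunction W L ∧ L 1 ≠ 0 := by
  have hn : Cls0 n := ⟨hs, hc⟩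
  have h3 : Nat.Coprime n 3 := by
    rw [Nat.coprime_comm, Nat.Prime.coprime_iff_not_dvd Nat.prime_three]
    omega
  have h5 : Nat.Coprime n 5 := by
    rw [Nat.coprime_comm, Nat.Prime.coprime_iff_not_dvd Nat.prime_five]
    omega
  have hco : n.Coprime 15 := Nat.Coprime.mul_right h3 h5
  have h4 : n % 4 = 3 := by omega
  obtain ⟨F, hF, hprod, e, he, hval⟩ := exists_Ltw hn.1 h4 hco
  obtain ⟨y, hy, hodd⟩ := Pool.Agent.Run7.h483.P15.t_PAR Run7.h238.P.pc Run7.h238.P.t_CP3
    Pool.Agent.Run7.h135.P15.r n hn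
  have hd := Pool.Agent.Run7.h135.P15.t_DIAG n hn
  refine ⟨F, isLFunction_of hs h4 hco hW hF hprod, fun h0 => ?_⟩
  have hy0 : y ≠ 0 := by
    rintro rfl
    exact absurd (hodd.2 hq) (by decide)
  rw [h0, zero_mul] at hval
  have h1 : e * (Pool.Agent.Run7.h741.MF.kappa * ((∑ u ∈ Pool.Agent.N969.P15.un n, jacobiSym u n *
          Pool.Agent.N969.P15.Fp u n : ℤ) : ℝ)) = 0 := by exact_mod_cast hval.symm
  have he0 : e ≠ 0 := by rcases he with rfl | rfl <;> norm_num
  have hk := Pool.Agent.Run7.h741.MF.kappa_pos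
  have h2 : (∑ u ∈ Pool.Agent.N969.P15.un n, jacobiSym u n *
          Pool.Agent.N969.P15.Fp u n : ℤ) = 0 := by
    rcases mul_eq_zero.1 h1 with h | h
    · exact absurd h he0
    · rcases mul_eq_zero.1 h with h | h
      · exact absurd h hk.ne'
      · exact_mod_cast h
  rw [h2, mul_zero, hy] at hd
  have h3 : (2 ^ n.primeFactors.card * y) = 0 := by
    have := hd.symm
    exact pow_eq_zero_iff (two_ne_zero) |>.1 this
  rcases mul_eq_zero.1 h3 with h | h
  · exact absurd h (by positivity)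
  · exact hy0 h

end Run7.h238.G15
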