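import Pool.Agent.Run7.h238.G15.Gf

/-!
# `L`-functions and twists: tools for all levels
-/

set_option autoImplicit false

open WeierstrassCurve

namespace Run7.h238.G15

open Pool.Agent.W97.MT (affCount ap)

theorem ex_par {α β a b : ℚ} (hα : α ≠ 0) (hβ : β ≠ 0) (ha : a ≠ 0) (hb : b ≠ 0)
    (h : b ^ 2 * α ^ 3 = a ^ 3 * β ^ 2) : ∃ t : ℚ, t ≠ 0 ∧ a = α * t ^ 2 ∧ b = β * t ^ 3 := by
  refine ⟨(b * α) / (a * β), by positivity, ?_, ?_⟩
  · field_simp
    linear_combination -h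
  · field_simp
    linear_combination (-1 : ℚ) * h

/-- from the `j`-invariant to the parameter -/
theorem ex_tj {α β j a b : ℚ} (hα : α ≠ 0) (hβ : β ≠ 0) (hj0 : j ≠ 0) (hj1 : j ≠ 1728)
    (hab : (6912 - 4 * j) * α ^ 3 = 27 * j * β ^ 2) (h0 : 4 * a ^ 3 + 27 * b ^ 2 ≠ 0)
    (hj : 1728 * (4 * a ^ 3) / (4 * a ^ 3 + 27 * b ^ 2) = j) :
    ∃ t : ℚ, t ≠ 0 ∧ a = α * t ^ 2 ∧ b = β * t ^ 3 := by
  rw [div_eq_iff h0] at hj
  have ha : a ≠ 0 := by
    rintro rfl
    have h1 : j * (27 * b ^ 2) = 0 := by linear_combination -hj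
    rcases mul_eq_zero.1 h1 with h | h
    · exact hj0 h
    · exact h0 (by linear_combination h)
  have hb : b ≠ 0 := by
    rintro rfl
    have h1 : (1728 - j) * (4 * a ^ 3) = 0 := by linear_combination hj
    rcases mul_eq_zero.1 h1 with h | h
    · exact hj1 (by linear_combination -h)
    · exact h0 (by linear_combination h)
  refine ex_par hα hβ ha hb ?_
  have h1 : 27 * j * (b ^ 2 * α ^ 3) = 27 * j * (a ^ 3 * β ^ 2) := by
    linear_combination (-α ^ 3) * hj - a ^ 3 * hab + (2 * a ^ 3) * hab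
  exact mul_left_cancel₀ (mul_ne_zero (by norm_num) hj0) h1

theorem isModel_scale {α β D A v : ℚ} {M : WeierstrassCurve ℤ} (hv : v ≠ 0) (hA : A = D * v ^ 2)
    (h : IsModel ⟨0, 0, 0, α * D ^ 2, β * D ^ 3⟩ M) :
    IsModel ⟨0, 0, 0, α * A ^ 2, β * A ^ 3⟩ M := by
  refine IsModel.of_smul ⟨Units.mk0 v hv, 0, 0, 0⟩ ?_
  have e : (⟨Units.mk0 v hv, 0, 0, 0⟩ : VariableChange ℚ) •
      (⟨0, 0, 0, α * A ^ 2, β * A ^ 3⟩ : WeierstrassCurve ℚ) =
      ⟨0, 0, 0, α * D ^ 2, β * D ^ 3⟩ := by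
    have hu : ((Units.mk0 v hv)⁻¹ : ℚˣ).1 = v⁻¹ := by
      rw [Units.val_inv_eq_inv_val]
      rfl
    ext
    · simp [variableChange_a₁]
    · simp [variableChange_a₂]
    · simp [variableChange_a₃]
    · simp only [variableChange_a₄, hu, hA]
      field_simp
      ring
    · simp only [variableChange_a₆, hu, hA]
      field_simp
      ring
  rw [e]
  exact h

/-- the complete Euler product of a global minimal equation -/
theorem isLF {W : WeierstrassCurve ℚ} {M : WeierstrassCurve ℤ} {m : ℕ}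
    (hmin : ∀ p : ℕ, p.Prime → MinAt M p) (hd : ∀ p : ℕ, p.Prime → ((p : ℤ) ∣ M.Δ ↔ p ∣ m))
    (hW : IsModel W M) {F : ℂ → ℂ} (hF : Differentiable ℂ F)
    (hp : ∀ s : ℂ, 3 / 2 < s.re → HasProd (fun p : ℕ => if p.Prime then
      (1 - (ap M p : ℂ) * (p : ℂ) ^ (-s) + if p ∣ m then 0 else (p : ℂ) ^ (1 - 2 * s))⁻¹ else 1)
      (F s)) : IsLFunction W F := by
  refine ⟨hF, fun _ => M, fun p => ⟨hW, hmin p p.2⟩, fun s hs' => ?_⟩
  have h := hp s hs'
  have hinj : Function.Injective (fun p : Nat.Primes => (p : ℕ)) := fun a b h => Subtype.ext h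
  rw [← Function.Injective.hasProd_iff hinj] at h
  · refine h.congr_fun ?_
    intro p
    show euler _ _ _ = if (p : ℕ).Prime then _ else 1
    rw [if_pos p.2]
    unfold euler
    rw [pts_eq]
    have e1 : ((ap M p : ℤ) : ℂ) = ((p : ℕ) : ℂ) - affCount M p := by
      unfold ap
      push_cast
      rfl
    rw [e1]
    by_cases h : ((p : ℕ) : ℤ) ∣ M.Δ
    · rw [if_pos h, if_pos ((hd p p.2).1 h)]
    · rw [if_neg h, if_neg (fun h' => h ((hd p p.2).2 h'))]
  · intro p hp'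
    rw [if_neg]
    intro h'
    exact hp' ⟨⟨p, h'⟩, rfl⟩

/-- minimality at all primes when the discriminant is `c n^6` -/
theorem min_all {M : WeierstrassCurve ℤ} {c n : ℕ} (hM : M.Δ = ((c * n ^ 6 : ℕ) : ℤ)) (hc : c ≠ 0)
    (hs : Squarefree n) (hco : n.Coprime c) (h12 : ∀ p : ℕ, p.Prime → padicValNat p c < 12) :
    ∀ p : ℕ, p.Prime → MinAt M p := by
  intro p hp
  have : Fact p.Prime := ⟨hp⟩
  have n0 : n ≠ 0 := hs.ne_zero
  refine minAt_of_lt hp ?_ ?_
  · rw [hM]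
    exact_mod_cast mul_ne_zero hc (pow_ne_zero _ n0)
  · rw [hM, padicValInt.of_nat, padicValNat.mul hc (pow_ne_zero _ n0), padicValNat.pow]
    have hn' : padicValNat p n ≤ 1 := by
      have := hs.natFactorization_le_one p
      rwa [Nat.factorization_def _ hp] at this
    have h1 := h12 p hp
    by_cases h : p ∣ n
    · have : padicValNat p c = 0 := padicValNat.eq_zero_of_not_dvd fun h' =>
        hp.one_lt.ne' (Nat.eq_one_of_dvd_coprimes hco h h')
      omega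
    · have : padicValNat p n = 0 := padicValNat.eq_zero_of_not_dvd h
      omega

theorem dvd_all {M : WeierstrassCurve ℤ} {c N n : ℕ} (hM : M.Δ = ((c * n ^ 6 : ℕ) : ℤ))
    (h1 : N ∣ c) {k : ℕ} (h2 : c ∣ N ^ k) {p : ℕ} (hp : p.Prime) :
    (p : ℤ) ∣ M.Δ ↔ p ∣ N * n := by
  rw [hM, Int.natCast_dvd_natCast]
  constructor
  · intro h
    rcases hp.dvd_mul.1 h with h | h
    · exact Dvd.dvd.mul_right (hp.dvd_of_dvd_pow (h.trans h2)) n
    · exact Dvd.dvd.mul_left (hp.dvd_of_dvd_pow h) N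
  · intro h
    rcases hp.dvd_mul.1 h with h | h
    · exact Dvd.dvd.mul_right (h.trans h1) _
    · exact Dvd.dvd.mul_left (dvd_pow h (by norm_num)) _

end Run7.h238.G15
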